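import Pool.Agent.P.MP_81d17b_pr.NA.Uniq

/-! Properties of the limiting two-point function. -/

namespace Pool.Agent.P.MP_81d17b_pr.NA

open MeasureTheory ProbabilityTheory Real Finset Function Filter Topology

set_option linter.unusedSectionVars false

variable {G : Type} [DecidableEq G] [Countable G] {β : ℝ} {S : SimpleGraph G} [S.LocallyFinite]
  {K : Sym2 G → ℝ} {o : G}

/-- A linear combination of spins. -/
noncomputable def hat (a : G →₀ ℝ) (σ : G → Bool) : ℝ := ∑ x ∈ a.support, a x * sg (σ x)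

theorem bf_cq (Q : Finset G) (a b : G →₀ ℝ) :
    bf (cq β S K Q) a b = av β S K Q (fun σ => hat a σ * hat b σ) fun _ => true := by
  rw [bf_eq]
  simp only [hat, sum_mul_sum, av, gam_sum, cq]
  refine sum_congr rfl fun x _ => sum_congr rfl fun y _ => ?_
  rw [← gam_mul_left]
  exact gam_congr fun σ _ => by rw [sp_mk]; ring

theorem bf_tend (hK : K ∈ UU β S) (a b : G →₀ ℝ) :
    Tendsto (fun Q => bf (cq β S K Q) a b) atTop (𝓝 (bf (cc β S K) a b)) := by
  simp only [bf_eq]
  exact tendsto_finsetSum _ fun x _ => tendsto_finsetSum _ fun y _ =>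
    (cc_tend hK x y).const_mul _

theorem cc_psd (hK : K ∈ UU β S) (a b : G →₀ ℝ) :
    |bf (cc β S K) a b| ≤ (bf (cc β S K) a a + bf (cc β S K) b b) / 2 := by
  refine le_of_tendsto_of_tendsto' (bf_tend hK a b).abs
    (((bf_tend hK a a).add (bf_tend hK b b)).div_const 2) fun Q => ?_
  simp only [bf_cq, av]
  rw [← gam_add, abs_le, div_eq_inv_mul, ← neg_mul, ← gam_mul_left, ← gam_mul_left]
  exact ⟨gam_mono (wt_pos Q) fun σ _ => by nlinarith [sq_nonneg (hat a σ + hat b σ)],
    gam_mono (wt_pos Q) fun σ _ => by nlinarith [sq_nonneg (hat a σ - hat b σ)]⟩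

theorem abs_cq (Q : Finset G) (x y : G) : |cq β S K Q x y| ≤ 1 :=
  abs_av (fun σ => by rcases sp_cases s(x, y) σ with h | h <;> simp [h]) _

theorem abs_cc (hK : K ∈ UU β S) (x y : G) : |cc β S K x y| ≤ 1 :=
  le_of_tendsto' (cc_tend hK x y).abs fun Q => abs_cq Q x y

theorem cc_one (hK : K ∈ UU β S) (x : G) : cc β S K x x = 1 := by
  refine tendsto_nhds_unique (cc_tend hK x x) (tendsto_const_nhds.congr fun Q => ?_)
  rw [cq, av, gam_congr (g := fun _ => 1) fun σ _ => by rw [sp_mk, sg_sq], gam_const (wt_pos Q)]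

theorem cc_dec (hK : K ∈ UU β S) {Λ : Finset G} {δ η : ℝ} (hη : 0 < η)
    (hδ : ∀ τ, |av β S K Λ (fun σ => sg (σ o)) τ| ≤ δ) (a : G →₀ ℝ) :
    bf (cc β S K) a (Finsupp.single o 1) ≤ 2 * (Λ.card + 1) / η * bf dl a a +
      η * bf (cc β S K) a a + (η / 2 + δ ^ 2 / (4 * η)) := by
  refine le_of_tendsto_of_tendsto (bf_tend hK a _) ((tendsto_const_nhds.add
    ((bf_tend hK a a).const_mul η)).add tendsto_const_nhds)
    ((eventually_ge_atTop Λ).mono fun Q hQ => ?_)
  set m := av β S K Λ fun σ => sg (σ o) with hm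
  have e0 : ∀ σ : G → Bool, hat (Finsupp.single o 1) σ = sg (σ o) := fun σ => by
    simp [hat]
  have e1 : bf (cq β S K Q) a (Finsupp.single o 1) =
      ∑ x ∈ a.support, a x * av β S K Q (fun σ => sg (σ x) * (sg (σ o) - m σ)) (fun _ => true) +
        av β S K Q (fun σ => hat a σ * m σ) fun _ => true := by
    simp only [bf_cq, e0, av, ← gam_mul_left]
    rw [← gam_sum, ← gam_add]
    refine gam_congr fun σ _ => ?_
    simp only [hat, sum_mul, ← sum_add_distrib]
    exact sum_congr rfl fun x _ => by ring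
  have hm1 : ∀ σ, |m σ| ≤ 1 := abs_av fun σ => by rcases sg_cases (σ o) with h | h <;> simp [h]
  have e2 : ∀ x, |av β S K Q (fun σ => sg (σ x) * (sg (σ o) - m σ)) fun _ => true| ≤
      if x ∈ Λ then 2 else 0 := by
    intro x
    split_ifs with hx
    · refine abs_av (fun σ => ?_) _
      have := abs_le.1 (hm1 σ)
      rcases sg_cases (σ x) with h | h <;> rcases sg_cases (σ o) with h' | h' <;>
        rw [h, h', abs_le] <;> constructor <;> linarith
    · rw [← av_av hQ]
      refine abs_av (fun τ => ?_) _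
      rw [av, gam_congr (g := fun σ => sg (τ x) * (sg (σ o) - m τ)) fun σ hσ => by
        rw [mem_confs.1 hσ x hx, hm, av, av, gam_congr_bc hσ], gam_mul_left, gam_sub,
        gam_const (wt_pos Λ), hm, av, sub_self, mul_zero, abs_zero]
  have hL : (0 : ℝ) < Λ.card + 1 := by positivity
  have e3 : ∑ x ∈ a.support, a x * av β S K Q (fun σ => sg (σ x) * (sg (σ o) - m σ))
      (fun _ => true) ≤ ∑ x ∈ a.support, (2 * (Λ.card + 1) / η * (a x * a x) +
        if x ∈ Λ then η / (2 * (Λ.card + 1)) else 0) := by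
    refine sum_le_sum fun x _ => (le_abs_self _).trans ?_
    rw [abs_mul]
    refine (mul_le_mul_of_nonneg_left (e2 x) (abs_nonneg _)).trans ?_
    split_ifs
    · set r := 2 * (Λ.card + 1) / η with hr
      have r0 : 0 < r := by positivity
      rw [show η / (2 * (Λ.card + 1)) = r⁻¹ by rw [hr, inv_div], ← abs_mul_abs_self]
      have : r * (|a x| * |a x|) + r⁻¹ - |a x| * 2 = (r * |a x| - 1) ^ 2 / r := by
        field_simp
        ring
      have h2 : 0 ≤ (r * |a x| - 1) ^ 2 / r := by positivity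
      linarith
    · have := mul_self_nonneg (a x)
      rw [mul_zero, add_zero]
      positivity
  have e4 : ∑ x ∈ a.support, (if x ∈ Λ then η / (2 * (Λ.card + 1)) else 0) ≤ η / 2 := by
    rw [← sum_filter, sum_const, nsmul_eq_mul, ← mul_div_assoc, div_le_div_iff₀ (by positivity)
      two_pos]
    have : (((a.support.filter fun x => x ∈ Λ).card : ℕ) : ℝ) ≤ Λ.card := by
      exact_mod_cast card_le_card fun x hx => (mem_filter.1 hx).2
    nlinarith
  have e5 : av β S K Q (fun σ => hat a σ * m σ) (fun _ => true) ≤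
      η * bf (cq β S K Q) a a + δ ^ 2 / (4 * η) := by
    rw [bf_cq, av, av, ← gam_mul_left,
      ← gam_const (wt_pos (β := β) (S := S) (K := K) Q) Q (fun _ => true) (δ ^ 2 / (4 * η)),
      ← gam_add]
    refine gam_mono (wt_pos Q) fun σ _ => ?_
    have h1 : m σ ^ 2 ≤ δ ^ 2 := sq_le_sq' (abs_le.1 (hδ σ)).1 (abs_le.1 (hδ σ)).2
    rw [← sub_le_iff_le_add', le_div_iff₀ (by positivity)]
    nlinarith [sq_nonneg (2 * η * hat a σ - m σ)]
  rw [sum_add_distrib, ← mul_sum, ← dl_eq] at e3
  dsimp only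
  linarith

theorem av_flip (Q : Finset G) (τ : G → Bool) :
    av β S K Q (fun σ => sg (σ o)) (fun x => !τ x) = -av β S K Q (fun σ => sg (σ o)) τ := by
  have key : ∀ F : (G → Bool) → ℝ,
      ∑ σ ∈ confs Q (fun x => !τ x), F σ = ∑ σ ∈ confs Q τ, F fun x => !σ x := fun F =>
    sum_nbij' (fun σ x => !σ x) (fun σ x => !σ x)
      (fun σ h => mem_confs.2 fun x hx => by simp [mem_confs.1 h x hx])
      (fun σ h => mem_confs.2 fun x hx => by simp [mem_confs.1 h x hx])
      (fun σ _ => by simp) (fun σ _ => by simp) fun σ _ => by simp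
  have hW : ∀ σ, wt β S K Q (fun x => !σ x) = wt β S K Q σ := fun σ => by
    unfold wt
    congr 2
    refine sum_congr rfl fun e _ => ?_
    induction e using Sym2.ind with
    | h x y => simp [sp_mk, sg_not]
  simp only [av, gam, part, key, hW, sg_not, mul_neg, sum_neg_distrib, neg_div]

theorem ev_small (hK : K ∈ UU β S) {δ : ℝ} (hδ : 0 < δ) :
    ∀ᶠ Q in atTop, ∀ τ, |av β S K Q (fun σ => sg (σ o)) τ| ≤ δ := by
  refine (UU.ev hK [o] hδ).mono fun Q h τ => ?_
  have e : spl [o] = fun σ => sg (σ o) := by funext σ; simp [spl]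
  have := h τ fun x => !τ x
  rw [e, av_flip, abs_le] at this
  rw [abs_le]
  constructor <;> linarith

variable {μ : Measure (Sym2 G → ℝ)} [IsProbabilityMeasure μ]

theorem exists_dec (hU : ∀ᵐ K ∂μ, K ∈ UU β S) (η : ℝ) (hη : 0 < η) :
    ∃ (C : ℝ) (v : (Sym2 G → ℝ) → ℝ), 0 < C ∧ Integrable v μ ∧ ∫ K, v K ∂μ ≤ η ∧
      ∀ᵐ K ∂μ, ∀ a, bf (cc β S K) a (Finsupp.single o 1) ≤
        C * bf dl a a + η * bf (cc β S K) a a + v K := by
  classical
  let A : Finset G → Set (Sym2 G → ℝ) := fun Q =>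
    {K | ∀ τ, |av β S K Q (fun σ => sg (σ o)) τ| ≤ η}
  have hA : ∀ Q, MeasurableSet (A Q) := fun Q => by
    simp only [A, Set.ofPred_forall]
    exact (isClosed_iInter fun τ =>
      isClosed_le (cont_av Q _ τ).abs continuous_const).measurableSet
  let v : Finset G → (Sym2 G → ℝ) → ℝ := fun Q K =>
    η / 2 + (if K ∈ A Q then η else 1) ^ 2 / (4 * η)
  have hv : ∀ Q, Measurable (v Q) := fun Q => measurable_const.add
    (((measurable_const.ite (hA Q) measurable_const).pow_const 2).div_const _)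
  have hb : ∀ Q K, ‖v Q K‖ ≤ η / 2 + (η ^ 2 + 1) / (4 * η) := fun Q K => by
    rw [Real.norm_of_nonneg (by positivity)]
    simp only [v]
    gcongr
    split_ifs <;> nlinarith
  have h1 := tendsto_integral_filter_of_dominated_convergence (μ := μ) (l := atTop) (F := v)
    (f := fun _ => η / 2 + η ^ 2 / (4 * η)) (fun _ => η / 2 + (η ^ 2 + 1) / (4 * η))
    (Eventually.of_forall fun Q => (hv Q).aestronglyMeasurable)
    (Eventually.of_forall fun Q => Eventually.of_forall (hb Q)) (integrable_const _)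
    (hU.mono fun K hK => tendsto_const_nhds.congr' ((ev_small hK hη).mono fun Q h => by
      simp only [v]; rw [if_pos (show K ∈ A Q from h)]))
  simp only [integral_const, probReal_univ, smul_eq_mul, one_mul] at h1
  obtain ⟨Q, hQ⟩ := (h1.eventually (ge_mem_nhds (show η / 2 + η ^ 2 / (4 * η) < η by
    rw [show η ^ 2 / (4 * η) = η / 4 by field_simp]; linarith))).exists
  refine ⟨2 * (Q.card + 1) / η, v Q, by positivity, (integrable_const _).mono'
    (hv Q).aestronglyMeasurable (Eventually.of_forall (hb Q)), hQ, hU.mono fun K hK a => ?_⟩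
  refine cc_dec hK hη (fun τ => ?_) a
  split_ifs with h
  · exact h τ
  · exact abs_av (fun σ => by rcases sg_cases (σ o) with h | h <;> simp [h]) τ

theorem cc_meas (hU : ∀ᵐ K ∂μ, K ∈ UU β S) (x y : G) :
    AEMeasurable (fun K => cc β S K x y) μ :=
  aemeasurable_of_tendsto_metrizable_ae atTop
    (fun Q => (cont_av Q _ _).measurable.aemeasurable) (hU.mono fun _ hK => cc_tend hK x y)

theorem edge_sec {Q : Finset G} {x y : G} (he : s(x, y) ∈ edges S Q) {ε t t' : ℝ} (hε : 0 < ε)
    (h : |cq β S (update K s(x, y) t) Q x y| < 1 - ε)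
    (h' : |cq β S (update K s(x, y) t') Q x y| < 1 - ε) : β * (t - t') * ε ^ 2 ≤ 4 := by
  obtain ⟨p1, p2⟩ := av_tilt (β := β) (K := update K s(x, y) t') he t (sp s(x, y)) fun _ => true
  have e : av β S (update K s(x, y) t') Q (fun σ => sp s(x, y) σ * sp s(x, y) σ)
      (fun _ => true) = 1 := by
    rw [av, gam_congr (g := fun _ => 1) fun σ _ => by
      rcases sp_cases s(x, y) σ with a | a <;> simp [a], gam_const (wt_pos Q)]
  rw [update_idem, update_self, e] at p1
  rw [update_self] at p2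
  unfold cq at h h'
  generalize av β S (update K s(x, y) t) Q (sp s(x, y)) (fun _ => true) = g at *
  generalize av β S (update K s(x, y) t') Q (sp s(x, y)) (fun _ => true) = z at *
  generalize β * (t - t') = u at *
  rw [eq_div_iff ((exp_pos _).trans_le p2).ne'] at p1
  rw [abs_lt] at h h'
  have a1 := cosh_add_sinh u
  have a2 := cosh_sub_sinh u
  have key : exp u * ((1 + z) * (1 - g)) = exp (-u) * ((1 - z) * (1 + g)) := by
    rw [← a1, ← a2]; linarith
  by_contra h4
  have u0 : 0 < u := by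
    by_contra h5
    nlinarith [sq_nonneg ε]
  have b1 : exp (-u) ≤ 1 := exp_le_one_iff.2 (by linarith)
  have b2 : ε ^ 2 ≤ (1 + z) * (1 - g) := by nlinarith
  have b3 : (1 - z) * (1 + g) ≤ 4 := by nlinarith
  have b4 : 0 ≤ (1 - z) * (1 + g) := by nlinarith
  nlinarith [add_one_le_exp u, mul_le_mul_of_nonneg_left b2 (exp_pos u).le, sq_nonneg ε,
    mul_le_mul_of_nonneg_right b1 b4]

theorem edge_fin (hi : iIndepFun (fun e (K : Sym2 G → ℝ) => K e) μ) {Q : Finset G} {x y : G}
    (he : s(x, y) ∈ edges S Q) {ν : Measure ℝ} (hν : μ.map (fun K => K s(x, y)) = ν)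
    {ε r : ℝ} {b : ENNReal} (hε : 0 < ε) (hr : 0 < r) (hβ : 4 < β * r * ε ^ 2)
    (hb : ∀ u, ν (Metric.ball u r) ≤ b) : μ {K | |cq β S K Q x y| < 1 - ε} ≤ b := by
  set T := (edges S Q).erase s(x, y) with hT
  let ext : (T → ℝ) → Sym2 G → ℝ := fun z i => if h : i ∈ T then z ⟨i, h⟩ else 0
  have hext : Measurable ext := measurable_pi_iff.2 fun i => by
    simp only [ext]
    split_ifs
    · fun_prop
    · fun_prop
  have h1 := (hi.indepFun_finset T {s(x, y)} (by simp [hT]) fun _ => by fun_prop).comp hext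
    (measurable_pi_apply ⟨s(x, y), mem_singleton_self _⟩)
  set Z : (Sym2 G → ℝ) → Sym2 G → ℝ := ext ∘ fun K (i : T) => K i with hZ
  have hZm : Measurable Z := hext.comp (by fun_prop)
  have h2 := (indepFun_iff_map_prod_eq_prod_map_map hZm.aemeasurable
    (measurable_pi_apply s(x, y)).aemeasurable).1 h1
  rw [hν] at h2
  let B : Set ((Sym2 G → ℝ) × ℝ) := {p | |cq β S (update p.1 s(x, y) p.2) Q x y| < 1 - ε}
  have hB : MeasurableSet B := measurableSet_lt (((cont_av Q _ _).comp
    (continuous_fst.update _ continuous_snd)).abs.measurable) measurable_const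
  have e : {K | |cq β S K Q x y| < 1 - ε} = (fun K => (Z K, K s(x, y))) ⁻¹' B := by
    ext K
    simp only [B, Set.mem_ofPred_eq, Set.mem_preimage, cq, av]
    rw [wt_congr (K := update (Z K) s(x, y) (K s(x, y))) (K' := K) fun i hi => ?_]
    by_cases h3 : i = s(x, y)
    · rw [h3, update_self]
    · rw [update_of_ne h3]
      simp [hZ, ext, hT, h3, hi]
  have : IsProbabilityMeasure ν := hν ▸ Measure.isProbabilityMeasure_map
    (measurable_pi_apply s(x, y)).aemeasurable
  have : IsProbabilityMeasure (μ.map Z) := Measure.isProbabilityMeasure_map hZm.aemeasurable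
  rw [e, ← Measure.map_apply (hZm.prodMk (measurable_pi_apply _)) hB, h2, Measure.prod_apply hB]
  refine (lintegral_mono (g := fun _ => b) fun z => ?_).trans (by simp)
  rcases (Prod.mk z ⁻¹' B).eq_empty_or_nonempty with h3 | ⟨t', h3⟩
  · simp [h3]
  · refine (measure_mono fun t h4 => ?_).trans (hb t')
    have a1 := edge_sec he hε h4 h3
    have a2 := edge_sec he hε h3 h4
    have e2 : 0 < ε ^ 2 := by positivity
    have b0 : 0 < β * ε ^ 2 := by
      by_contra h5
      nlinarith
    rw [Metric.mem_ball, Real.dist_eq, abs_lt]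
    constructor <;> by_contra h5 <;> nlinarith

theorem edge_inf (hU : ∀ᵐ K ∂μ, K ∈ UU β S)
    (hi : iIndepFun (fun e (K : Sym2 G → ℝ) => K e) μ) {s : G} (hs : S.Adj o s)
    {ν : Measure ℝ} (hν : μ.map (fun K => K s(o, s)) = ν)
    {ε r : ℝ} {b : ENNReal} (hε : 0 < ε) (hr : 0 < r) (hβ : 4 < β * r * ε ^ 2)
    (hb : ∀ u, ν (Metric.ball u r) ≤ b) : μ {K | |cc β S K o s| < 1 - ε} ≤ b := by
  let E : Finset G → Set (Sym2 G → ℝ) := fun Q =>
    {K | ∀ Q', Q ≤ Q' → |cq β S K Q' o s| < 1 - ε}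
  have hE : Monotone E := fun Q Q' h K hK Q'' h' => hK Q'' (h.trans h')
  refine (measure_mono_ae (t := ⋃ Q, E Q) (hU.mono fun K hK h => ?_)).trans ?_
  · exact Set.mem_iUnion.2 (eventually_atTop.1
      ((cc_tend hK o s).abs.eventually (gt_mem_nhds h)))
  · rw [hE.measure_iUnion]
    refine iSup_le fun Q => le_trans (measure_mono fun K hK => ?_) (edge_fin (Q := insert o Q) hi
      (mem_edges.2 ⟨o, mem_insert_self _ _, s, hs, rfl⟩) hν hε hr hβ hb)
    exact hK (insert o Q) (subset_insert _ _)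

end Pool.Agent.P.MP_81d17b_pr.NA
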