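import Mathlib

namespace Pool.Agent.P.MP_81d17b_pr.NA

open MeasureTheory

variable {V : Type} [DecidableEq V]

/-- The sign attached to a Boolean: `true` is `+1`, `false` is `-1`. -/
def sg (b : Bool) : ℝ := if b then 1 else -1

/-- The edges of the graph `H` with an endpoint in `Λ`. -/
def edges (H : SimpleGraph V) [H.LocallyFinite] (Λ : Finset V) : Finset (Sym2 V) :=
  Λ.biUnion fun x => H.incidenceFinset x

/-- The configuration equal to `η` in `Λ` and to `τ` outside `Λ`. -/
def paste (Λ : Finset V) (η : Λ → Bool) (τ : V → Bool) : V → Bool :=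
  fun x => if h : x ∈ Λ then η ⟨x, h⟩ else τ x

/-- The sum of `J {x,y} σ_x σ_y` over the edges with an endpoint in `Λ`. -/
noncomputable def ham (H : SimpleGraph V) [H.LocallyFinite] (J : Sym2 V → ℝ) (Λ : Finset V)
    (σ : V → Bool) : ℝ :=
  ∑ e ∈ edges H Λ, J e * (e.map fun x => sg (σ x)).mul

/-- The probability of the spins `η` in `Λ` under the finite-volume Gibbs measure with boundary
condition `τ`. -/
noncomputable def kern (β : ℝ) (H : SimpleGraph V) [H.LocallyFinite] (J : Sym2 V → ℝ)
    (Λ : Finset V) (τ : V → Bool) (η : Λ → Bool) : ℝ :=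
  Real.exp (β * ham H J Λ (paste Λ η τ)) / ∑ ζ : Λ → Bool, Real.exp (β * ham H J Λ (paste Λ ζ τ))

/-- Gibbs state (DLR condition): a probability measure such that for every finite set `Λ` and
every `η`, the conditional probability that the spins in `Λ` equal `η`, given the spins outside
`Λ`, is `kern β H J Λ τ η` for almost every `τ`. -/
def IsDLR (β : ℝ) (H : SimpleGraph V) [H.LocallyFinite] (J : Sym2 V → ℝ)
    (π : Measure (V → Bool)) : Prop :=
  IsProbabilityMeasure π ∧
    ∀ (Λ : Finset V) (η : Λ → Bool),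
      condExp (cylinderEvents ((Λ : Set V)ᶜ)) π
          (Set.indicator {σ | ∀ x : Λ, σ x = η x} fun _ => (1 : ℝ))
        =ᵐ[π] fun τ => kern β H J Λ τ η

end Pool.Agent.P.MP_81d17b_pr.NA
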