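import Pool.Agent.P.MP_81d17b_pr.NA.Defs
import Pool.Agent.P.MP_81d17b_pr.Gam

/-! Finite-volume averages on a locally finite graph and their limits. -/

namespace Pool.Agent.P.MP_81d17b_pr.NA

open MeasureTheory ProbabilityTheory Real Finset Function Filter Topology

set_option linter.unusedSectionVars false

variable {Ω : Type*} [MeasurableSpace Ω] {P : Measure Ω} in
theorem zero_one {ι : Type} {J : ι → Ω → ℝ} (hJ : ∀ e, Measurable (J e)) (hi : iIndepFun J P)
    {U : Set (ι → ℝ)} (hU : MeasurableSet U) [DecidableEq ι]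
    (hinv : ∀ K ∈ U, ∀ e t, update K e t ∈ U) :
    (∀ᵐ ω ∂P, (fun e => J e ω) ∈ U) ∨ ∀ᵐ ω ∂P, (fun e => J e ω) ∉ U := by
  have := hi.isProbabilityMeasure
  have h1 : ∀ (F : Finset ι) (K : ι → ℝ), K ∈ U ↔ (fun e => if e ∈ F then 0 else K e) ∈ U := by
    intro F K
    induction F using Finset.induction_on with
    | empty => simp
    | insert a F ha ih =>
      rw [ih]
      constructor
      · intro h
        convert hinv _ h a 0 using 1
        funext e
        by_cases he : e = a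
        · simp [he]
        · simp [he]
      · intro h
        convert hinv _ h a (K a) using 1
        funext e
        by_cases he : e = a
        · simp [he, ha]
        · simp [he]
  have hm : Measurable fun ω e => J e ω := measurable_pi_iff.2 hJ
  have h2 := measure_zero_or_one_of_measurableSet_limsup (μ := P)
    (s := fun e => MeasurableSpace.comap (J e) inferInstance) (f := cofinite) (p := Set.Finite)
    (ns := fun F : Finset ι => (F : Set ι)) (fun e => (hJ e).comap_le)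
    ((iIndepFun_iff_iIndep _ _ _).1 hi) (fun t ht => by simpa using ht)
    (fun F G => ⟨F ∪ G, by simp, by simp⟩) (fun F => F.finite_toSet)
    (fun e => ⟨{e}, by simp⟩) (t := (fun ω e => J e ω) ⁻¹' U) (by
      rw [limsup_eq_iInf_iSup]
      refine MeasurableSpace.measurableSet_iInf.2 fun t =>
        MeasurableSpace.measurableSet_iInf.2 fun ht => ?_
      have h3 : (fun ω e => J e ω) ⁻¹' U =
          (fun ω e => if e ∈ (mem_cofinite.1 ht).toFinset then 0 else J e ω) ⁻¹' U :=
        Set.ext fun ω => h1 _ _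
      rw [h3]
      have h4 : Measurable[⨆ e ∈ t, MeasurableSpace.comap (J e) inferInstance]
          fun ω e => if e ∈ (mem_cofinite.1 ht).toFinset then 0 else J e ω := by
        refine (@measurable_pi_iff _ _ _ (_) _ _).2 fun e => ?_
        split_ifs with he
        · exact measurable_const
        · exact (comap_measurable (J e)).mono (le_iSup₂ (f := fun e (_ : e ∈ t) =>
            MeasurableSpace.comap (J e) inferInstance) e (by simpa using he)) le_rfl
      exact h4 hU)
  rcases h2 with h2 | h2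
  · exact Or.inr (measure_eq_zero_iff_ae_notMem.1 h2)
  · exact Or.inl ((mem_ae_iff_prob_eq_one (hm hU)).2 h2)

variable {G : Type} [DecidableEq G] [Countable G]

/-- A basic cylinder set. -/
def cy (T : Finset G) (ζ : G → Bool) : Set (G → Bool) :=
  {σ | ∀ x ∈ T, σ x = ζ x}

/-- The basic cylinder sets based in `Δ`. -/
def cys (Δ : Set G) : Set (Set (G → Bool)) :=
  {s | ∃ (T : Finset G) (ζ : G → Bool), (T : Set G) ⊆ Δ ∧ s = cy T ζ}

theorem pi_cys (Δ : Set G) : IsPiSystem (cys Δ) := by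
  rintro _ ⟨T, ζ, hT, rfl⟩ _ ⟨T', ζ', hT', rfl⟩ ⟨σ, h1, h2⟩
  refine ⟨T ∪ T', σ, by rw [Finset.coe_union]; exact Set.union_subset hT hT', ?_⟩
  ext ρ
  simp only [cy, Set.mem_inter_iff, Set.mem_ofPred_eq, Finset.mem_union] at h1 h2 ⊢
  constructor
  · rintro ⟨a, b⟩ x (hx | hx)
    · rw [a x hx, h1 x hx]
    · rw [b x hx, h2 x hx]
  · intro h
    exact ⟨fun x hx => by rw [h x (Or.inl hx), h1 x hx],
      fun x hx => by rw [h x (Or.inr hx), h2 x hx]⟩

theorem meas_cy {Δ : Set G} {T : Finset G} (hT : (T : Set G) ⊆ Δ)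
    (ζ : G → Bool) : MeasurableSet[cylinderEvents Δ] (cy T ζ) := by
  have : cy T ζ = ⋂ x ∈ T, (fun σ : G → Bool => σ x) ⁻¹' {ζ x} := by
    ext σ; simp [cy]
  rw [this]
  exact Finset.measurableSet_biInter T fun x hx =>
    measurable_cylinderEvent_apply (X := fun _ : G => Bool) (hT hx)
      (measurableSet_singleton _)

theorem cyl_eq (Δ : Set G) :
    cylinderEvents (X := fun _ : G => Bool) Δ = MeasurableSpace.generateFrom (cys Δ) := by
  apply le_antisymm
  · refine iSup₂_le fun x hx => ?_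
    rw [← measurable_iff_comap_le]
    refine @measurable_to_countable' _ _ _ _ (MeasurableSpace.generateFrom (cys Δ)) _ fun b => ?_
    refine MeasurableSpace.measurableSet_generateFrom ⟨{x}, fun _ => b, by simpa using hx, ?_⟩
    ext σ; simp [cy]
  · refine MeasurableSpace.generateFrom_le ?_
    rintro _ ⟨T, ζ, hT, rfl⟩
    exact meas_cy hT ζ

variable {A T : Finset G} {F H : (G → Bool) → ℝ}

theorem dep_comp (h : Dep A F) : F = (fun η : A → Bool => F (glue A η fun _ => true)) ∘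
    fun (σ : G → Bool) (x : A) => σ x := by
  funext σ
  exact h _ _ fun x hx => (glue_of_mem (fun x : A => σ x) _ hx).symm

theorem dep_meas (h : Dep A F) {Δ : Set G} (hA : (A : Set G) ⊆ Δ) :
    Measurable[cylinderEvents Δ] F := by
  rw [dep_comp h]
  refine (measurable_of_finite _).comp ?_
  rw [@measurable_pi_iff]
  exact fun x => measurable_cylinderEvent_apply (X := fun _ : G => Bool) (hA x.2)

theorem dep_cont (h : Dep A F) : Continuous F := by
  rw [dep_comp h]
  exact continuous_of_discreteTopology.comp (continuous_pi fun x => continuous_apply _)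

theorem dep_int (h : Dep A F) (μ0 : Measure (G → Bool)) [IsFiniteMeasure μ0] :
    Integrable F μ0 :=
  (BoundedContinuousFunction.mkOfCompact ⟨F, dep_cont h⟩).integrable μ0

theorem dep_mul (hF : Dep A F) (hG : Dep T H) : Dep (A ∪ T) fun σ => F σ * H σ := by
  intro σ σ' h
  simp only
  rw [hF σ σ' fun x hx => h x (Finset.mem_union_left _ hx),
    hG σ σ' fun x hx => h x (Finset.mem_union_right _ hx)]

theorem dep_cy (T : Finset G) (ζ : G → Bool) :
    Dep T ((cy T ζ).indicator fun _ => (1 : ℝ)) := by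
  intro σ σ' h
  have : σ ∈ cy T ζ ↔ σ' ∈ cy T ζ := forall₂_congr fun x hx => by rw [h x hx]
  by_cases h1 : σ ∈ cy T ζ
  · rw [Set.indicator_of_mem h1, Set.indicator_of_mem (this.1 h1)]
  · rw [Set.indicator_of_notMem h1, Set.indicator_of_notMem fun h2 => h1 (this.2 h2)]

/-- The indicator that the spins in `Λ` equal `η`. -/
noncomputable def idc (Λ : Finset G) (η : Λ → Bool) : (G → Bool) → ℝ :=
  Set.indicator {σ | ∀ x : Λ, σ x = η x} fun _ => (1 : ℝ)

theorem dep_idc (Λ : Finset G) (η : Λ → Bool) : Dep Λ (idc Λ η) := by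
  intro σ σ' h
  have : (∀ x : Λ, σ x = η x) ↔ ∀ x : Λ, σ' x = η x := forall_congr' fun x => by rw [h x x.2]
  simp only [idc, Set.indicator_apply, Set.mem_ofPred_eq, this]

theorem idc_glue (Λ : Finset G) (η ζ : Λ → Bool) (τ : G → Bool) :
    idc Λ η (glue Λ ζ τ) = if ζ = η then 1 else 0 := by
  have : (∀ x : Λ, glue Λ ζ τ x = η x) ↔ ζ = η := by
    rw [funext_iff]
    exact forall_congr' fun x => by rw [glue_of_mem _ _ x.2]
  simp only [idc, Set.indicator_apply, Set.mem_ofPred_eq, this]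

theorem sg_not (b : Bool) : sg (!b) = -sg b := by cases b <;> simp [sg]

theorem sg_sq (b : Bool) : sg b * sg b = 1 := by cases b <;> simp [sg]

theorem sg_cases (b : Bool) : sg b = 1 ∨ sg b = -1 := by cases b <;> simp [sg]

/-- The product of the two spins of a pair. -/
noncomputable def sp (e : Sym2 G) (σ : G → Bool) : ℝ := (e.map fun x => sg (σ x)).mul

theorem sp_mk (x y : G) (σ : G → Bool) : sp s(x, y) σ = sg (σ x) * sg (σ y) := rfl

theorem sp_congr {e : Sym2 G} {σ τ : G → Bool} (h : ∀ x ∈ e, σ x = τ x) : sp e σ = sp e τ := by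
  induction e using Sym2.ind with
  | h x y => rw [sp_mk, sp_mk, h x (by simp), h y (by simp)]

/-- The Boltzmann weight of the volume `Λ`. -/
noncomputable def wt (β : ℝ) (S : SimpleGraph G) [S.LocallyFinite] (K : Sym2 G → ℝ)
    (Λ : Finset G) (σ : G → Bool) : ℝ :=
  exp (β * ∑ e ∈ edges S Λ, K e * sp e σ)

variable {β : ℝ} {S : SimpleGraph G} [S.LocallyFinite] {K : Sym2 G → ℝ}

theorem wt_pos (Λ : Finset G) (σ : G → Bool) : 0 < wt β S K Λ σ := exp_pos _

theorem kern_eq (Λ : Finset G) (τ : G → Bool) (η : Λ → Bool) :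
    kern β S K Λ τ η = gam (wt β S K Λ) Λ (idc Λ η) τ := by
  rw [gam_eq_glue]
  simp only [idc_glue, mul_ite, mul_one, mul_zero, Finset.sum_ite_eq', Finset.mem_univ, if_true]
  rfl

theorem mem_edges {Λ : Finset G} {e : Sym2 G} :
    e ∈ edges S Λ ↔ ∃ x ∈ Λ, ∃ y, S.Adj x y ∧ s(x, y) = e := by
  simp only [edges, mem_biUnion, SimpleGraph.mem_incidenceFinset]
  refine exists_congr fun x => and_congr_right fun _ => ⟨fun h => ?_, ?_⟩
  · obtain ⟨y, rfl⟩ := Sym2.mem_iff_exists.1 h.2
    exact ⟨y, h.1, rfl⟩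
  · rintro ⟨y, h, rfl⟩
    exact ⟨h, by simp⟩

theorem gam_cons {Λ Q : Finset G} (h : Λ ⊆ Q) (f : (G → Bool) → ℝ)
    (τ : G → Bool) : gam (wt β S K Q) Λ f τ = gam (wt β S K Λ) Λ f τ := by
  have h1 : edges S Λ ⊆ edges S Q := biUnion_subset_biUnion_of_subset_left _ h
  refine gam_weight (C := fun σ => exp (β * ∑ e ∈ edges S Q \ edges S Λ, K e * sp e σ))
    (exp_pos _).ne' (fun σ hσ => ?_) f
  rw [wt, wt, ← exp_add, ← mul_add, ← sum_sdiff h1]
  congr 3
  refine sum_congr rfl fun e he => ?_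
  obtain ⟨h2, h3⟩ := mem_sdiff.1 he
  obtain ⟨x, _, s, hs, rfl⟩ := mem_edges.1 h2
  rw [sp_congr fun y hy => mem_confs.1 hσ y fun h4 => h3 (mem_edges.2 ?_)]
  rcases Sym2.mem_iff.1 hy with rfl | rfl
  · exact ⟨_, h4, s, hs, rfl⟩
  · exact ⟨_, h4, x, hs.symm, Sym2.eq_swap⟩

theorem dep_gam (Λ : Finset G) {f : (G → Bool) → ℝ} (hf : Dep Λ f) :
    ∃ Γ : Finset G, Dep (Γ \ Λ) (gam (wt β S K Λ) Λ f) := by
  refine ⟨Λ.biUnion fun x => S.neighborFinset x,
    fun τ τ' h => gam_local (fun η => ?_) fun η => hf _ _ fun x hx => ?_⟩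
  · rw [wt, wt]
    congr 2
    refine sum_congr rfl fun e he => ?_
    obtain ⟨y, hy, s, hs, rfl⟩ := mem_edges.1 he
    rw [sp_congr fun x hx => ?_]
    by_cases h4 : x ∈ Λ
    · rw [glue_of_mem _ _ h4, glue_of_mem _ _ h4]
    · rw [glue_of_notMem _ _ h4, glue_of_notMem _ _ h4, h x (mem_sdiff.2 ⟨?_, h4⟩)]
      rcases Sym2.mem_iff.1 hx with rfl | rfl
      · exact absurd hy h4
      · exact mem_biUnion.2 ⟨y, hy, (S.mem_neighborFinset _ _).2 hs⟩
  · rw [glue_of_mem _ _ hx, glue_of_mem _ _ hx]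

/-- The finite-volume measure. -/
noncomputable def fvol (W : (G → Bool) → ℝ) (Λ : Finset G)
    (τ : G → Bool) : Measure (G → Bool) :=
  ∑ σ ∈ confs Λ τ, ENNReal.ofReal (W σ / part W Λ τ) • Measure.dirac σ

theorem fvol_prob {W : (G → Bool) → ℝ} (hW : ∀ σ, 0 < W σ) (Λ : Finset G)
    (τ : G → Bool) : IsProbabilityMeasure (fvol W Λ τ) := by
  have hZ := part_pos hW Λ τ
  constructor
  simp only [fvol, Measure.coe_finsetSum, Finset.sum_apply, Measure.smul_apply,
    measure_univ, smul_eq_mul, mul_one]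
  rw [← ENNReal.ofReal_sum_of_nonneg fun σ _ => (div_pos (hW σ) hZ).le, ← Finset.sum_div]
  change ENNReal.ofReal (part _ _ _ / _) = 1
  rw [div_self hZ.ne', ENNReal.ofReal_one]

theorem int_fvol {W : (G → Bool) → ℝ} (hW : ∀ σ, 0 < W σ) (Λ : Finset G)
    (τ : G → Bool) (hF : Dep A F) : ∫ σ, F σ ∂(fvol W Λ τ) = gam W Λ F τ := by
  have hZ := part_pos hW Λ τ
  unfold fvol gam
  rw [integral_finsetSum_measure fun σ _ =>
    (dep_int hF _).smul_measure ENNReal.ofReal_ne_top, Finset.sum_div]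
  refine Finset.sum_congr rfl fun σ _ => ?_
  rw [integral_smul_measure, integral_dirac,
    ENNReal.toReal_ofReal (div_pos (hW σ) hZ).le, smul_eq_mul]
  ring

theorem dlr_limit (u : Ultrafilter (Finset G))
    (hu : (u : Filter (Finset G)) ≤ atTop) (τ0 : Finset G → G → Bool) :
    ∃ μ0 : Measure (G → Bool), IsDLR β S K μ0 ∧
      ∀ (A : Finset G) (F : (G → Bool) → ℝ), Dep A F →
        Tendsto (fun Q => gam (wt β S K Q) Q F (τ0 Q)) u (𝓝 (∫ σ, F σ ∂μ0)) := by
  let μs : Finset G → ProbabilityMeasure (G → Bool) :=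
    fun Q => ⟨fvol (wt β S K Q) Q (τ0 Q), fvol_prob (wt_pos Q) _ _⟩
  obtain ⟨μ0, -, hμ0⟩ := isCompact_univ.ultrafilter_le_nhds (u.map μs) (by simp)
  have hlim : Tendsto μs u (𝓝 μ0) := hμ0
  have hconv : ∀ {A : Finset G} {F : (G → Bool) → ℝ}, Dep A F →
      Tendsto (fun Q => gam (wt β S K Q) Q F (τ0 Q)) u
        (𝓝 (∫ σ, F σ ∂(μ0 : Measure (G → Bool)))) := by
    intro A F hF
    have := ProbabilityMeasure.tendsto_iff_forall_integral_tendsto.1 hlim
      (BoundedContinuousFunction.mkOfCompact ⟨F, dep_cont hF⟩)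
    refine this.congr fun Q => ?_
    exact int_fvol (wt_pos Q) _ _ hF
  refine ⟨μ0, ⟨inferInstance, fun Λ η => ?_⟩, fun A F hF => hconv hF⟩
  change condExp _ _ (idc Λ η) =ᵐ[_] _
  set m : Measure (G → Bool) := (μ0 : Measure (G → Bool)) with hm
  have hI := dep_idc Λ η
  obtain ⟨Γ, hG⟩ := dep_gam (β := β) (S := S) (K := K) Λ hI
  have hGi := dep_int hG m
  have hIi := dep_int hI m
  have hbasic : ∀ (T : Finset G) (ζ : G → Bool),
      (T : Set G) ⊆ (Λ : Set G)ᶜ →
      ∫ σ in cy T ζ, gam (wt β S K Λ) Λ (idc Λ η) σ ∂m = ∫ σ in cy T ζ, idc Λ η σ ∂m := by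
    intro T ζ hT
    have hmeas : MeasurableSet (cy T ζ) := cylinderEvents_le_pi _ (meas_cy hT ζ)
    set g : (G → Bool) → ℝ := (cy T ζ).indicator fun _ => (1 : ℝ) with hg
    have e : ∀ F : (G → Bool) → ℝ, ∫ σ in cy T ζ, F σ ∂m = ∫ σ, g σ * F σ ∂m := by
      intro F
      rw [← integral_indicator hmeas]
      congr 1
      funext σ
      by_cases h : σ ∈ cy T ζ <;> simp [hg, h]
    rw [e, e]
    refine tendsto_nhds_unique (hconv (dep_mul (dep_cy T ζ) hG))
      ((hconv (dep_mul (dep_cy T ζ) hI)).congr' ?_)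
    filter_upwards [hu (eventually_ge_atTop Λ)] with Q hQ
    rw [← gam_gam (wt_pos _) hQ]
    refine gam_congr fun σ _ => ?_
    rw [← gam_cons hQ, ← gam_mul_left]
    refine gam_congr fun ρ hρ => ?_
    rw [dep_cy T ζ ρ σ fun x hx => mem_confs.1 hρ x (hT hx)]
  have hall : ∀ t, MeasurableSet[cylinderEvents ((Λ : Set G)ᶜ)] t →
      ∫ σ in t, gam (wt β S K Λ) Λ (idc Λ η) σ ∂m = ∫ σ in t, idc Λ η σ ∂m := by
    intro t ht
    refine MeasurableSpace.induction_on_inter (m := cylinderEvents ((Λ : Set G)ᶜ))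
      (C := fun t _ => ∫ σ in t, gam (wt β S K Λ) Λ (idc Λ η) σ ∂m = ∫ σ in t, idc Λ η σ ∂m)
      (cyl_eq _) (pi_cys _) (by simp) ?_ ?_ ?_ t ht
    · rintro _ ⟨T, ζ, hT, rfl⟩
      exact hbasic T ζ hT
    · intro v hv h1
      have hv' : MeasurableSet v := cylinderEvents_le_pi _ hv
      have h0 := hbasic ∅ (fun _ => true) (by simp)
      have : cy (∅ : Finset G) (fun _ => true) = Set.univ := by ext; simp [cy]
      rw [this, Measure.restrict_univ] at h0
      rw [setIntegral_compl hv' hGi, setIntegral_compl hv' hIi, h0, h1]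
    · intro v hdis hv h1
      have hv' : ∀ i, MeasurableSet (v i) := fun i => cylinderEvents_le_pi _ (hv i)
      rw [integral_iUnion hv' hdis hGi.integrableOn, integral_iUnion hv' hdis hIi.integrableOn]
      exact tsum_congr h1
  simp only [kern_eq]
  refine (ae_eq_condExp_of_forall_setIntegral_eq cylinderEvents_le_pi hIi
    (fun t _ _ => hGi.integrableOn) (fun t ht _ => hall t ht) ?_).symm
  refine (dep_meas hG ?_).stronglyMeasurable.aestronglyMeasurable
  intro x hx
  exact (Finset.mem_sdiff.1 hx).2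

end Pool.Agent.P.MP_81d17b_pr.NA
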