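import Pool.Agent.P.MP_81d17b_pr.NA.Ker

/-! The isoperimetric inequality as a spectral bound, and small intervals of a law with small
atoms. -/

namespace Pool.Agent.P.MP_81d17b_pr.NA

open Finset MeasureTheory Filter Topology

set_option linter.unusedSectionVars false

variable {G : Type} [DecidableEq G] {S : G → Finset G} {h : ℝ} {D : ℕ}

theorem coarea (hD : ∀ x, (S x).card = D)
    (hiso : ∀ K : Finset G, h * K.card ≤ ∑ x ∈ K, ((S x \ K).card : ℝ))
    (A : Finset G) : ∀ g : G → ℝ, (∀ x, 0 ≤ g x) → (∀ x, x ∉ A → g x = 0) →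
      ∑ x ∈ A, ∑ y ∈ S x, min (g x) (g y) ≤ (D - h) * ∑ x ∈ A, g x := by
  induction A using Finset.strongInduction with
  | H A ih =>
  intro g g0 gA
  rcases A.eq_empty_or_nonempty with rfl | hA
  · simp
  obtain ⟨x0, hx0, hmin⟩ := A.exists_min_image g hA
  set g' : G → ℝ := fun x => if x ∈ A then g x - g x0 else 0 with hg'
  have g0' : ∀ x, 0 ≤ g' x := fun x => by
    simp only [hg']
    split_ifs with hx
    · linarith [hmin x hx]
    · rfl
  have hz : g' x0 = 0 := by simp [hg']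
  have h1 := ih (A.erase x0) (erase_ssubset hx0) g' g0' fun x hx => by
    by_cases h2 : x = x0
    · rw [h2, hz]
    · simp only [hg']
      rw [if_neg fun h3 => hx (mem_erase.2 ⟨h2, h3⟩)]
  have e1 : ∑ x ∈ A.erase x0, ∑ y ∈ S x, min (g' x) (g' y) =
      ∑ x ∈ A, ∑ y ∈ S x, min (g' x) (g' y) := by
    rw [sum_erase]
    exact sum_eq_zero fun s _ => by rw [hz]; exact min_eq_left (g0' _)
  have e2 : ∑ x ∈ A.erase x0, g' x = ∑ x ∈ A, g x - A.card * g x0 := by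
    rw [sum_erase _ hz, ← nsmul_eq_mul, ← sum_const, ← sum_sub_distrib]
    exact sum_congr rfl fun x hx => by simp [hg', hx]
  have e3 : ∑ x ∈ A, ∑ y ∈ S x, min (g x) (g y) =
      ∑ x ∈ A, ∑ y ∈ S x, min (g' x) (g' y) + A.card * (D * g x0) -
        (∑ x ∈ A, ((S x \ A).card : ℝ)) * g x0 := by
    rw [← nsmul_eq_mul, ← sum_const, sum_mul, ← sum_add_distrib, ← sum_sub_distrib]
    refine sum_congr rfl fun x h2 => ?_
    rw [← hD x, ← nsmul_eq_mul, ← nsmul_eq_mul, ← sum_const, ← sum_const, sdiff_eq_filter,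
      sum_filter, ← sum_add_distrib, ← sum_sub_distrib]
    refine sum_congr rfl fun y _ => ?_
    by_cases h3 : y ∈ A
    · simp only [hg', h2, h3, if_true, not_true, if_false, min_sub_sub_right]
      ring
    · rw [if_pos h3, gA _ h3, min_eq_right (g0 _), show g' y = 0 by simp [hg', h3],
        min_eq_right (g0' _)]
      ring
  rw [e1, e2] at h1
  rw [e3]
  nlinarith [mul_le_mul_of_nonneg_right (hiso A) (g0 x0)]

theorem pair_le {κ t : ℝ} (hκ : 0 < κ) (ht : t = 0 ∨ t = 1 ∨ t = -1) (u v : ℝ) :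
    (1 - κ) * t ^ 2 * (u ^ 2 + v ^ 2) + 2 * κ * t * u * v ≤
      2 * min (u ^ 2) (v ^ 2) + (u ^ 2 + v ^ 2) / (2 * κ) := by
  have key : ∀ u w : ℝ, u ^ 2 + w ^ 2 - κ * (u - w) ^ 2 ≤ 2 * u ^ 2 + (u ^ 2 + w ^ 2) / (2 * κ) := by
    intro u w
    rw [← sub_le_iff_le_add', le_div_iff₀ (by positivity)]
    nlinarith [sq_nonneg (2 * κ * (w - u) - (w + u)), sq_nonneg (u - w)]
  rcases ht with rfl | rfl | rfl
  · have : 0 ≤ min (u ^ 2) (v ^ 2) := le_min (sq_nonneg _) (sq_nonneg _)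
    have : 0 ≤ (u ^ 2 + v ^ 2) / (2 * κ) := by positivity
    linarith
  · rcases min_cases (u ^ 2) (v ^ 2) with a | a <;> rw [a.1]
    · linarith [key u v]
    · have := key v u
      rw [add_comm (v ^ 2)] at this
      linarith
  · rcases min_cases (u ^ 2) (v ^ 2) with a | a <;> rw [a.1]
    · have := key u (-v)
      rw [neg_sq] at this
      linarith
    · have := key (-v) u
      rw [neg_sq, add_comm (v ^ 2)] at this
      linarith

/-- The weights of the test operator. -/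
noncomputable def wgt (S : G → Finset G) (D : ℕ) (κ : ℝ) (t : G → G → ℝ) (x s : G) : ℝ :=
  (if s = x then (1 - κ) * ∑ r ∈ S x, t x r ^ 2 else κ * t x s) / (2 * κ * D)

variable {κ : ℝ} {t : G → G → ℝ}

theorem sum_wgt (h1 : ∀ x, x ∉ S x) (x : G) (F : G → ℝ) :
    ∑ s ∈ insert x (S x), wgt S D κ t x s * F s =
      (∑ s ∈ S x, ((1 - κ) * t x s ^ 2 * F x + κ * t x s * F s)) / (2 * κ * D) := by
  rw [sum_insert (h1 x), sum_add_distrib, add_div, sum_div, sum_div]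
  congr 1
  · rw [wgt, if_pos rfl, mul_sum, sum_div, sum_mul]
    exact sum_congr rfl fun s _ => by ring
  · refine sum_congr rfl fun s hs => ?_
    rw [wgt, if_neg (ne_of_mem_of_not_mem hs (h1 x))]
    ring

theorem wgt_row (h1 : ∀ x, x ∉ S x) (hD : ∀ x, (S x).card = D) (hκ : 1 ≤ κ)
    (ht : ∀ x s, t x s = 0 ∨ t x s = 1 ∨ t x s = -1) (x : G) :
    ∑ s ∈ insert x (S x), |wgt S D κ t x s| ≤ 1 := by
  have a : ∀ s, t x s ^ 2 ≤ 1 ∧ |t x s| ≤ 1 := fun s => by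
    rcases ht x s with e | e | e <;> simp [e]
  have hB : (0 : ℝ) ≤ 2 * κ * D := by positivity
  have b : ∑ r ∈ S x, t x r ^ 2 ≤ D := by
    simpa [hD x] using sum_le_card_nsmul (S x) (fun r => t x r ^ 2) 1 fun r _ => (a r).1
  have b0 : 0 ≤ ∑ r ∈ S x, t x r ^ 2 := sum_nonneg fun _ _ => sq_nonneg _
  have c : ∑ s ∈ S x, |wgt S D κ t x s| ≤ D * (κ / (2 * κ * D)) := by
    rw [← nsmul_eq_mul, ← hD x]
    refine sum_le_card_nsmul (S x) _ _ fun s hs => ?_
    rw [hD x, wgt, if_neg (ne_of_mem_of_not_mem hs (h1 x)), abs_div, abs_of_nonneg hB, abs_mul,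
      abs_of_nonneg (by linarith : 0 ≤ κ)]
    exact div_le_div_of_nonneg_right (by nlinarith [(a s).2]) hB
  rw [sum_insert (h1 x), wgt, if_pos rfl, abs_div, abs_of_nonneg hB, abs_mul, abs_of_nonneg b0,
    abs_of_nonpos (by linarith : 1 - κ ≤ 0)]
  refine (add_le_add le_rfl c).trans ?_
  rw [← mul_div_assoc, ← add_div]
  exact div_le_one_of_le₀ (by nlinarith) hB

theorem wgt_top (hS : ∀ x y, y ∈ S x → x ∈ S y) (h1 : ∀ x, x ∉ S x) (hD : ∀ x, (S x).card = D)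
    (hκ : 1 ≤ κ) (hiso : ∀ K : Finset G, h * K.card ≤ ∑ x ∈ K, ((S x \ K).card : ℝ))
    (ht : ∀ x s, t x s = 0 ∨ t x s = 1 ∨ t x s = -1) (hs : ∀ x y, t y x = t x y)
    (a : G →₀ ℝ) : bf dl (Mt (fun x => insert x (S x)) (wgt S D κ t) a) a ≤
      (D - h + D / (2 * κ)) / (2 * κ * D) * bf dl a a := by
  set A := a.support with hA
  let F : G → G → ℝ := fun x s => (1 - κ) * t x s ^ 2 * a x ^ 2 + κ * t x s * (a x * a s)
  have e1 : bf dl (Mt (fun x => insert x (S x)) (wgt S D κ t) a) a =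
      (∑ x ∈ A, ∑ y ∈ S x, F x y) / (2 * κ * D) := by
    rw [dl_Mt, sum_div]
    refine sum_congr rfl fun x _ => ?_
    simp only [mul_assoc (wgt S D κ t x _)]
    rw [sum_wgt h1 x fun s => a x * a s]
    simp only [F, sq]
  have e2 : ∑ x ∈ A, ∑ y ∈ S x, F x y ≤ ∑ x ∈ A, ∑ y ∈ (S x).filter (· ∈ A), F x y := by
    refine sum_le_sum fun x _ => ?_
    rw [sum_filter]
    refine sum_le_sum fun y _ => ?_
    split_ifs with h2
    · rfl
    · simp only [F, Finsupp.notMem_support_iff.1 h2, mul_zero, add_zero]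
      exact mul_nonpos_of_nonpos_of_nonneg
        (mul_nonpos_of_nonpos_of_nonneg (by linarith) (sq_nonneg _)) (sq_nonneg _)
  have e3 := swap_sum hS A F
  have e4 := swap_sum hS A fun x _ => a x ^ 2
  have e5 : ∑ x ∈ A, ∑ y ∈ (S x).filter (· ∈ A), F y x +
      ∑ x ∈ A, ∑ y ∈ (S x).filter (· ∈ A), F x y ≤
      2 * ∑ x ∈ A, ∑ y ∈ (S x).filter (· ∈ A), min (a x ^ 2) (a y ^ 2) +
        (∑ x ∈ A, ∑ y ∈ (S x).filter (· ∈ A), a x ^ 2 +
          ∑ x ∈ A, ∑ y ∈ (S x).filter (· ∈ A), a y ^ 2) / (2 * κ) := by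
    simp only [← sum_add_distrib, mul_sum, sum_div]
    refine sum_le_sum fun x _ => sum_le_sum fun y _ => ?_
    have := pair_le (κ := κ) (by linarith) (ht x y) (a x) (a y)
    simp only [F, hs x y]
    linarith
  have e6 : ∑ x ∈ A, ∑ y ∈ (S x).filter (· ∈ A), min (a x ^ 2) (a y ^ 2) ≤
      (D - h) * ∑ x ∈ A, a x ^ 2 :=
    (sum_le_sum fun x _ => sum_le_sum_of_subset_of_nonneg (filter_subset _ _) fun p _ _ =>
      le_min (sq_nonneg _) (sq_nonneg _)).trans (coarea hD hiso A (fun x => a x ^ 2)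
        (fun _ => sq_nonneg _) fun x hx => by rw [Finsupp.notMem_support_iff.1 hx]; simp)
  have e7 : ∑ x ∈ A, ∑ y ∈ (S x).filter (· ∈ A), a x ^ 2 ≤ D * ∑ x ∈ A, a x ^ 2 := by
    rw [mul_sum]
    refine sum_le_sum fun x _ => (sum_le_sum_of_subset_of_nonneg (filter_subset _ _)
      fun p _ _ => sq_nonneg _).trans ?_
    simp [hD x]
  have e8 : bf dl a a = ∑ x ∈ A, a x ^ 2 := by rw [dl_eq]; simp only [sq]; rfl
  rw [e1, e8, div_mul_eq_mul_div]
  refine div_le_div_of_nonneg_right ?_ (by positivity)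
  rw [e3, e4] at e5
  generalize ∑ x ∈ A, ∑ y ∈ (S x).filter (· ∈ A), a x ^ 2 = U at *
  have e9 : (U + U) / (2 * κ) ≤ 2 * (D / (2 * κ) * ∑ x ∈ A, a x ^ 2) := by
    rw [div_mul_eq_mul_div, ← mul_div_assoc]
    exact div_le_div_of_nonneg_right (by linarith) (by positivity)
  nlinarith

theorem small_int (ν : Measure ℝ) [IsProbabilityMeasure ν] {a b : ℝ} (ha : ∀ u, ν.real {u} ≤ a)
    (hab : a < b) : ∃ r : ℝ, 0 < r ∧ ∀ u, ν (Metric.ball u r) ≤ ENNReal.ofReal b := by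
  have hb : 0 < b := (measureReal_nonneg.trans (ha 0)).trans_lt hab
  have h1 : ∀ u : ℝ, ∃ U, IsOpen U ∧ u ∈ U ∧ ν U < ENNReal.ofReal b := fun u => by
    obtain ⟨U, h1, h2, h3⟩ := Set.exists_isOpen_lt_of_lt (μ := ν) {u} (ENNReal.ofReal b)
      ((ENNReal.lt_ofReal_iff_toReal_lt (measure_ne_top _ _)).2 ((ha u).trans_lt hab))
    exact ⟨U, h2, h1 rfl, h3⟩
  choose U hU hu hν using h1
  obtain ⟨K, hK, h2⟩ := (isTightMeasureSet_iff_exists_isCompact_measure_compl_le.1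
    (isTightMeasureSet_singleton (μ := ν))) (ENNReal.ofReal b) (ENNReal.ofReal_pos.2 hb)
  obtain ⟨δ, hδ, h3⟩ := lebesgue_number_lemma_of_metric hK hU
    fun x _ => Set.mem_iUnion.2 ⟨x, hu x⟩
  refine ⟨δ / 2, by positivity, fun u => ?_⟩
  by_cases h4 : ∃ x ∈ K, x ∈ Metric.ball u (δ / 2)
  · obtain ⟨x, hx, h5⟩ := h4
    obtain ⟨i, hi⟩ := h3 x hx
    refine (measure_mono fun y hy => hi ?_).trans (hν i).le
    rw [Metric.mem_ball] at h5 hy ⊢
    linarith [dist_triangle_right y x u]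
  · exact (measure_mono fun y hy h5 => h4 ⟨y, h5, hy⟩).trans (h2 ν rfl)

end Pool.Agent.P.MP_81d17b_pr.NA
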