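import Pool.Agent.P.MP_81d17b_pr.NA.Poly

/-! A covariance kernel whose far part is asymptotically orthogonal to the origin obeys the
spectral bounds of the regular representation. -/

namespace Pool.Agent.P.MP_81d17b_pr.NA

open Polynomial Finset MeasureTheory

set_option linter.unusedSectionVars false

variable {G : Type} [DecidableEq G]

/-- The nearest-neighbour operator with weights `m`. -/
noncomputable def Mt (S : G → Finset G) (m : G → G → ℝ) : Module.End ℝ (G →₀ ℝ) :=
  Finsupp.linearCombination ℝ fun x => ∑ s ∈ S x, m x s • Finsupp.single s (1 : ℝ)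

/-- The bilinear form of a kernel. -/
noncomputable def bf (c : G → G → ℝ) : (G →₀ ℝ) →ₗ[ℝ] (G →₀ ℝ) →ₗ[ℝ] ℝ :=
  Finsupp.linearCombination ℝ fun x => Finsupp.linearCombination ℝ (c x)

/-- The identity kernel. -/
def dl (x y : G) : ℝ := if x = y then 1 else 0

/-- The row of a polynomial in the operator. -/
noncomputable def row (S : G → Finset G) (m : G → G → ℝ) (x : G) : ℝ[X] →ₗ[ℝ] (G →₀ ℝ) :=
  LinearMap.applyₗ (Finsupp.single x (1 : ℝ)) ∘ₗ (aeval (Mt S m)).toLinearMap

variable {S : G → Finset G} {m c : G → G → ℝ}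

theorem row_eq (x : G) (p : ℝ[X]) : row S m x p = aeval (Mt S m) p (Finsupp.single x 1) := rfl

theorem row_one (x : G) : row S m x 1 = Finsupp.single x 1 := by simp [row_eq]

theorem row_X (x : G) (p : ℝ[X]) : row S m x (p * X) = ∑ s ∈ S x, m x s • row S m s p := by
  simp only [row_eq, map_mul, aeval_X, Module.End.mul_apply]
  conv_lhs => rw [Mt]
  simp only [Finsupp.linearCombination_single, one_smul, map_sum, map_smul]
  rfl

theorem bf_single (x y : G) : bf c (Finsupp.single x 1) (Finsupp.single y 1) = c x y := by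
  simp [bf]

theorem bf_eq (a b : G →₀ ℝ) :
    bf c a b = ∑ x ∈ a.support, ∑ y ∈ b.support, a x * b y * c x y := by
  simp only [bf, Finsupp.linearCombination_apply, Finsupp.sum, LinearMap.sum_apply,
    LinearMap.smul_apply, smul_eq_mul, mul_sum, mul_assoc]

theorem dl_single (x : G) (b : G →₀ ℝ) : bf dl (Finsupp.single x 1) b = b x := by
  rw [bf, Finsupp.linearCombination_single, one_smul]
  simp only [Finsupp.linearCombination_apply, Finsupp.sum, dl, smul_eq_mul, mul_ite, mul_one,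
    mul_zero, sum_ite_eq]
  split_ifs with h
  · rfl
  · exact (Finsupp.notMem_support_iff.1 h).symm

theorem dl_eq (a b : G →₀ ℝ) : bf dl a b = ∑ x ∈ a.support, a x * b x := by
  conv_lhs => rw [← Finsupp.sum_single a]
  rw [Finsupp.sum, map_sum, LinearMap.sum_apply]
  refine sum_congr rfl fun x _ => ?_
  rw [← mul_one (a x), ← Finsupp.smul_single', map_smul, LinearMap.smul_apply, dl_single]
  simp

theorem dl_Mt (a b : G →₀ ℝ) :
    bf dl (Mt S m a) b = ∑ x ∈ a.support, ∑ s ∈ S x, m x s * a x * b s := by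
  simp only [Mt, Finsupp.linearCombination_apply, Finsupp.sum, map_sum, map_smul,
    LinearMap.sum_apply, LinearMap.smul_apply, dl_single, smul_eq_mul, mul_sum]
  exact sum_congr rfl fun x _ => sum_congr rfl fun s _ => by ring

theorem poly_ind {P : ℝ[X] → Prop} (h1 : P 1) (hadd : ∀ p q, P p → P q → P (p + q))
    (hs : ∀ (a : ℝ) p, P p → P (a • p)) (hX : ∀ p, P p → P (p * X)) (p : ℝ[X]) : P p := by
  induction p using Polynomial.induction_on with
  | C a => simpa [smul_eq_C_mul] using hs a 1 h1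
  | add p q hp hq => exact hadd p q hp hq
  | monomial n a h => rw [pow_succ, ← mul_assoc]; exact hX _ h

theorem adj (hS : ∀ x y, y ∈ S x → x ∈ S y) (hm : ∀ x y, m y x = m x y) (a b : G →₀ ℝ) :
    bf dl (Mt S m a) b = bf dl a (Mt S m b) := by
  have : (bf dl).comp (Mt S m) = (bf (G := G) dl).compl₂ (Mt S m) := by
    ext x y
    simp only [LinearMap.comp_apply, Finsupp.lsingle_apply, LinearMap.compl₂_apply, Mt,
      Finsupp.linearCombination_single, one_smul, map_sum, map_smul, LinearMap.sum_apply,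
      LinearMap.smul_apply, bf_single, smul_eq_mul]
    simp only [dl, mul_ite, mul_one, mul_zero, sum_ite_eq, sum_ite_eq', hm x y]
    exact if_congr ⟨hS _ _, hS _ _⟩ rfl rfl
  exact LinearMap.congr_fun (LinearMap.congr_fun this a) b

theorem adj_aeval (hS : ∀ x y, y ∈ S x → x ∈ S y) (hm : ∀ x y, m y x = m x y) (p : ℝ[X]) :
    ∀ a b : G →₀ ℝ, bf dl (aeval (Mt S m) p a) b = bf dl a (aeval (Mt S m) p b) := by
  induction p using poly_ind with
  | h1 => simp
  | hadd p q hp hq => intro a b; simp [hp, hq]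
  | hs r p hp => intro a b; simp [hp]
  | hX p hp =>
    intro a b
    conv_rhs => rw [mul_comm]
    simp only [map_mul, aeval_X, Module.End.mul_apply]
    rw [hp, adj hS hm]

theorem swap_sum (hS : ∀ x y, y ∈ S x → x ∈ S y) (A : Finset G) (F : G → G → ℝ) :
    ∑ x ∈ A, ∑ y ∈ (S x).filter (· ∈ A), F y x = ∑ x ∈ A, ∑ y ∈ (S x).filter (· ∈ A), F x y :=
  sum_comm' fun x y => by
    simp only [mem_filter]
    exact ⟨fun h => ⟨⟨hS _ _ h.2.1, h.1⟩, h.2.2⟩, fun h => ⟨h.1.2, hS _ _ h.1.1, h.2⟩⟩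

theorem dl_lower (hS : ∀ x y, y ∈ S x → x ∈ S y) (hm : ∀ x y, m y x = m x y)
    (hr : ∀ x, ∑ s ∈ S x, |m x s| ≤ 1) (a : G →₀ ℝ) : -bf dl a a ≤ bf dl (Mt S m a) a := by
  set A := a.support with hA
  have e1 : bf dl (Mt S m a) a = ∑ x ∈ A, ∑ y ∈ (S x).filter (· ∈ A), m x y * a x * a y := by
    rw [dl_Mt]
    refine sum_congr rfl fun x _ => (sum_filter_of_ne fun y _ h => ?_).symm
    exact Finsupp.mem_support_iff.2 (right_ne_zero_of_mul h)
  have e2 := swap_sum hS A fun x y => |m x y| * a x ^ 2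
  have e3 : ∑ x ∈ A, ∑ y ∈ (S x).filter (· ∈ A), |m x y| * a x ^ 2 ≤ bf dl a a := by
    rw [dl_eq]
    refine sum_le_sum fun x _ => ?_
    rw [← sum_mul]
    have := (sum_le_sum_of_subset_of_nonneg (filter_subset (· ∈ A) (S x))
      fun y _ _ => abs_nonneg (m x y)).trans (hr x)
    nlinarith [sq_nonneg (a x)]
  have e4 : -(∑ x ∈ A, ∑ y ∈ (S x).filter (· ∈ A), |m y x| * a y ^ 2 +
      ∑ x ∈ A, ∑ y ∈ (S x).filter (· ∈ A), |m x y| * a x ^ 2) ≤
      2 * ∑ x ∈ A, ∑ y ∈ (S x).filter (· ∈ A), m x y * a x * a y := by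
    simp only [← sum_add_distrib, ← sum_neg_distrib, mul_sum]
    refine sum_le_sum fun x _ => sum_le_sum fun y _ => ?_
    rw [hm x y]
    rcases abs_cases (m x y) with h | h <;> rw [h.1]
    · nlinarith [mul_nonneg h.2 (sq_nonneg (a x + a y))]
    · nlinarith [mul_nonneg (neg_nonneg.2 h.2.le) (sq_nonneg (a x - a y))]
  linarith

theorem reg_bound (hS : ∀ x y, y ∈ S x → x ∈ S y) (hm : ∀ x y, m y x = m x y)
    (hr : ∀ x, ∑ s ∈ S x, |m x s| ≤ 1) (o : G) {ρ θ : ℝ}
     (hρ : ∀ a, bf dl (Mt S m a) a ≤ ρ * bf dl a a)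
    {p : ℝ[X]} (hp : ∀ l, Cls' ρ l → l (p ^ 2) ≤ θ) :
    bf dl (row S m o p) (row S m o p) ≤ θ := by
  have key : ∀ p q, ((bf dl).flip (Finsupp.single o 1) ∘ₗ row S m o) (q * p) =
      bf dl (row S m o p) (row S m o q) := by
    intro p q
    simp only [LinearMap.comp_apply, LinearMap.flip_apply, row_eq, map_mul, Module.End.mul_apply]
    exact adj_aeval hS hm q _ _
  rw [← key, ← sq]
  refine hp _ ⟨by simp [row_one, bf_single, dl], fun q => ?_⟩
  have e : row S m o (X * q) = Mt S m (row S m o q) := by simp [row_eq]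
  rw [show X * q ^ 2 = q * (X * q) by ring, sq, key, key, e]
  exact ⟨dl_lower hS hm hr _, hρ _⟩

variable {Ω : Type} [MeasurableSpace Ω] {μ : Measure Ω} {Γ : Type} [Group Γ] [MulAction Γ G]
  {T : Γ → Ω → Ω} {o : G}

/-- The mass-transport principle for nearest neighbours. -/
def MTP (Γ : Type) [Group Γ] [MulAction Γ G] (S : G → Finset G) (o : G) : Prop :=
  ∀ f : G → G → ℝ, (∀ (g : Γ) x y, f (g • x) (g • y) = f x y) →
    ∑ y ∈ S o, f y o = ∑ y ∈ S o, f o y

theorem mtp_of (hS : ∀ x y, y ∈ S x → x ∈ S y)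
    (hg : ∀ (g : Γ) x y, g • y ∈ S (g • x) ↔ y ∈ S x) (ht : ∀ x y : G, ∃ g : Γ, g • x = y)
    (hu : ∀ x, ∀ y ∈ S x, (MulAction.orbit (MulAction.stabilizer Γ x) y).ncard =
      (MulAction.orbit (MulAction.stabilizer Γ y) x).ncard) : MTP Γ S o := by
  classical
  intro f hf
  let R : G → G → Prop := fun y z => ∃ g : Γ, g • o = z ∧ g • y = o
  let n : G → ℕ := fun y => ((S o).filter fun z => R y z).card
  let n' : G → ℕ := fun z => ((S o).filter fun y => R y z).card
  have h1 : ∀ y ∈ S o, n y ≠ 0 := fun y hy => by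
    obtain ⟨g, h⟩ := ht y o
    exact (card_pos.2 ⟨g • o, mem_filter.2 ⟨h ▸ (hg g y o).2 (hS _ _ hy), g, rfl, h⟩⟩).ne'
  have h2 : ∀ z ∈ S o, n' z ≠ 0 := fun z hz => by
    obtain ⟨g, h⟩ := ht o z
    exact (card_pos.2 ⟨g⁻¹ • o, mem_filter.2 ⟨(hg g o _).1 (by simpa [h] using hS _ _ hz),
      g, h, by simp⟩⟩).ne'
  have h3 : ∀ z ∈ S o, ∀ y, R y z → n y = n' z := by
    rintro z hz y ⟨g0, a, b⟩
    have e1 : MulAction.orbit (MulAction.stabilizer Γ o) z = ↑((S o).filter fun z => R y z) := by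
      ext w
      simp only [coe_filter, Set.mem_ofPred_eq]
      constructor
      · rintro ⟨⟨k, hk⟩, rfl⟩
        have hk' : k • o = o := hk
        refine ⟨?_, k * g0, by rw [mul_smul, a]; rfl, by rw [mul_smul, b, hk']⟩
        have := (hg k o z).2 hz
        rwa [hk'] at this
      · rintro ⟨-, g, c, d⟩
        refine ⟨⟨g * g0⁻¹, ?_⟩, ?_⟩
        · change (g * g0⁻¹) • o = o
          rw [mul_smul, show g0⁻¹ • o = y from inv_smul_eq_iff.2 b.symm, d]
        · change (g * g0⁻¹) • z = w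
          rw [mul_smul, ← a, inv_smul_smul, c]
    have e2 : MulAction.orbit (MulAction.stabilizer Γ z) o =
        (g0 • ·) '' ↑((S o).filter fun y => R y z) := by
      ext w
      simp only [coe_filter, Set.mem_image, Set.mem_ofPred_eq]
      constructor
      · rintro ⟨⟨k, hk⟩, rfl⟩
        have hk' : k • z = z := hk
        have hk2 : k⁻¹ • z = z := by rw [inv_smul_eq_iff, hk']
        refine ⟨g0⁻¹ • k • o, ⟨(hg g0 o _).1 ?_, k⁻¹ * g0, by rw [mul_smul, a, hk2],
          by simp [mul_smul]⟩, smul_inv_smul _ _⟩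
        have := (hg k z o).2 (hS _ _ hz)
        rwa [smul_inv_smul, a, ← hk']
      · rintro ⟨v, ⟨-, g, c, d⟩, rfl⟩
        refine ⟨⟨g0 * g⁻¹, ?_⟩, ?_⟩
        · change (g0 * g⁻¹) • z = z
          rw [mul_smul, ← c, inv_smul_smul, a, c]
        · change (g0 * g⁻¹) • o = g0 • v
          rw [mul_smul, ← d, inv_smul_smul]
    have := hu o z hz
    rwa [e1, e2, Set.ncard_image_of_injective _ (MulAction.injective g0), Set.ncard_coe_finset,
      Set.ncard_coe_finset] at this
  calc ∑ z ∈ S o, f z o = ∑ z ∈ S o, ∑ y ∈ (S o).filter fun y => R y z, f z o / n' z :=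
        sum_congr rfl fun z hz => by
          rw [sum_const, nsmul_eq_mul, mul_div_cancel₀ _ (Nat.cast_ne_zero.2 (h2 z hz))]
    _ = ∑ y ∈ S o, ∑ z ∈ (S o).filter fun z => R y z, f z o / n' z :=
        sum_comm' fun z y => by simp only [mem_filter]; tauto
    _ = ∑ y ∈ S o, ∑ z ∈ (S o).filter fun z => R y z, f o y / n y :=
        sum_congr rfl fun y _ => sum_congr rfl fun z hz => by
          obtain ⟨hz, g, a, b⟩ := mem_filter.1 hz
          rw [h3 z hz y ⟨g, a, b⟩, ← hf g o y, a, b]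
    _ = _ := sum_congr rfl fun y hy => by
          rw [sum_const, nsmul_eq_mul, mul_div_cancel₀ _ (Nat.cast_ne_zero.2 (h1 y hy))]

theorem transport (hM : MTP Γ S o) (hS : ∀ x y, y ∈ S x → x ∈ S y)
    (hg : ∀ (g : Γ) x y, g • y ∈ S (g • x) ↔ y ∈ S x) (hT : ∀ g, MeasurePreserving (T g) μ μ)
    {w F : Ω → G → G → ℝ} (hw : ∀ g ω x s, w (T g ω) (g • x) (g • s) = w ω x s)
    (hF : ∀ g ω x y, F (T g ω) (g • x) (g • y) = F ω x y) (hs : ∀ ω x y, w ω y x = w ω x y)
    (hi : ∀ x, ∀ s ∈ S x, ∀ y z, Integrable (fun ω => w ω x s * F ω y z) μ) :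
    ∫ ω, ∑ s ∈ S o, w ω o s * F ω s o ∂μ = ∫ ω, ∑ s ∈ S o, w ω o s * F ω o s ∂μ := by
  rw [integral_finsetSum _ fun s hs => hi o s hs _ _,
    integral_finsetSum _ fun s hs => hi o s hs _ _]
  have := hM (fun x y => if y ∈ S x then ∫ ω, w ω x y * F ω x y ∂μ else 0) fun g x y => by
    by_cases h : y ∈ S x
    · rw [if_pos h, if_pos ((hg g x y).2 h)]
      have h1 := integral_map (φ := T g) (μ := μ) (hT g).measurable.aemeasurable
        (f := fun ω => w ω (g • x) (g • y) * F ω (g • x) (g • y))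
        (by rw [(hT g).map_eq]; exact (hi _ _ ((hg g x y).2 h) _ _).1)
      rw [(hT g).map_eq] at h1
      rw [h1]
      simp only [hw, hF]
    · rw [if_neg h, if_neg fun h' => h ((hg g x y).1 h')]
  rw [sum_congr rfl fun y hy => if_pos (hS _ _ hy), sum_congr rfl fun y hy => if_pos hy] at this
  simpa only [hs _ o] using this

theorem sum_smul_eq (hg : ∀ (g : Γ) x y, g • y ∈ S (g • x) ↔ y ∈ S x) (g : Γ) (x : G)
    (F : G → ℝ) : ∑ z ∈ S (g • x), F z = ∑ z ∈ S x, F (g • z) :=
  sum_nbij' (g⁻¹ • ·) (g • ·) (fun z h => (hg g x _).1 (by simpa using h))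
    (fun z h => (hg g x z).2 h) (fun _ _ => by simp) (fun _ _ => by simp) fun _ _ => by simp

theorem principle [IsProbabilityMeasure μ] (hM : MTP Γ S o) (hS : ∀ x y, y ∈ S x → x ∈ S y)
    (hg : ∀ (g : Γ) x y, g • y ∈ S (g • x) ↔ y ∈ S x) (hT : ∀ g, MeasurePreserving (T g) μ μ) {m c : Ω → G → G → ℝ}
    (hm : ∀ g ω x s, m (T g ω) (g • x) (g • s) = m ω x s)
    (hc : ∀ g ω x y, c (T g ω) (g • x) (g • y) = c ω x y)
    (hs : ∀ ω x y, m ω y x = m ω x y) (hr : ∀ ω x, ∑ s ∈ S x, |m ω x s| ≤ 1)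
    (mm : ∀ x s, AEStronglyMeasurable (fun ω => m ω x s) μ)
    (ci : ∀ x y, Integrable (fun ω => c ω x y) μ) (c1 : ∀ᵐ ω ∂μ, c ω o o = 1)
    (psd : ∀ᵐ ω ∂μ, ∀ a b, |bf (c ω) a b| ≤ (bf (c ω) a a + bf (c ω) b b) / 2)
    {ρ : ℝ} (h0 : -1 < ρ) (h1 : ρ ≤ 1) (hρ : ∀ ω a, bf dl (Mt S (m ω) a) a ≤ ρ * bf dl a a)
    (hD : ∀ η : ℝ, 0 < η → ∃ (C : ℝ) (v : Ω → ℝ), 0 < C ∧ Integrable v μ ∧ ∫ ω, v ω ∂μ ≤ η ∧
      ∀ᵐ ω ∂μ, ∀ a, bf (c ω) a (Finsupp.single o 1) ≤
        C * bf dl a a + η * bf (c ω) a a + v ω) :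
    ∫ ω, ∑ s ∈ S o, m ω o s * c ω s o ∂μ ≤ ρ := by
  let Φ : ℝ[X] → ℝ[X] → Ω → G → G → ℝ := fun p q ω x y =>
    bf (c ω) (row S (m ω) x p) (row S (m ω) y q)
  have hl : ∀ p q ω x y, Φ (p * X) q ω x y = ∑ s ∈ S x, m ω x s * Φ p q ω s y := by
    intro p q ω x y
    simp only [Φ, row_X, map_sum, map_smul, LinearMap.sum_apply, LinearMap.smul_apply, smul_eq_mul]
  have hr' : ∀ p q ω x y, Φ p (q * X) ω x y = ∑ s ∈ S y, m ω y s * Φ p q ω x s := by
    intro p q ω x y
    simp only [Φ, row_X, map_sum, map_smul, smul_eq_mul]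
  have hb : ∀ x, ∀ s ∈ S x, ∀ {F : Ω → ℝ}, Integrable F μ →
      Integrable (fun ω => m ω x s * F ω) μ := fun x s h F hF =>
    hF.bdd_mul (c := 1) (mm x s) (Filter.Eventually.of_forall fun ω =>
      (single_le_sum (f := fun s => |m ω x s|) (fun _ _ => abs_nonneg _) h).trans (hr ω x))
  have hb' : ∀ x, ∀ s ∈ S x, ∀ {F : Ω → ℝ}, Integrable F μ →
      Integrable (fun ω => |m ω x s| * F ω) μ := fun x s h F hF =>
    hF.bdd_mul (c := 1) (mm x s).norm (Filter.Eventually.of_forall fun ω => by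
      rw [Real.norm_eq_abs, abs_abs]
      exact (single_le_sum (f := fun s => |m ω x s|) (fun _ _ => abs_nonneg _) h).trans (hr ω x))
  have good : ∀ p q, (∀ x y, Integrable (fun ω => Φ p q ω x y) μ) ∧
      ∀ g ω x y, Φ p q (T g ω) (g • x) (g • y) = Φ p q ω x y := by
    intro p q
    induction p using poly_ind with
    | h1 =>
      induction q using poly_ind with
      | h1 => simpa only [Φ, row_one, bf_single] using And.intro ci hc
      | hadd p q hp hq =>
        simp only [Φ, map_add] at hp hq ⊢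
        exact ⟨fun x y => (hp.1 x y).add (hq.1 x y), fun g ω x y => by rw [hp.2, hq.2]⟩
      | hs r p hp =>
        simp only [Φ, map_smul, smul_eq_mul] at hp ⊢
        exact ⟨fun x y => (hp.1 x y).const_mul r, fun g ω x y => by rw [hp.2]⟩
      | hX p hp =>
        simp only [hr']
        exact ⟨fun x y => integrable_finsetSum _ fun s h => hb y s h (hp.1 _ _),
          fun g ω x y => by simp only [sum_smul_eq hg, hm, hp.2]⟩
    | hadd p p' hp hq =>
      simp only [Φ, map_add, LinearMap.add_apply] at hp hq ⊢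
      exact ⟨fun x y => (hp.1 x y).add (hq.1 x y), fun g ω x y => by rw [hp.2, hq.2]⟩
    | hs r p hp =>
      simp only [Φ, map_smul, LinearMap.smul_apply, smul_eq_mul] at hp ⊢
      exact ⟨fun x y => (hp.1 x y).const_mul r, fun g ω x y => by rw [hp.2]⟩
    | hX p hp =>
      simp only [hl]
      exact ⟨fun x y => integrable_finsetSum _ fun s h => hb x s h (hp.1 _ _),
        fun g ω x y => by simp only [sum_smul_eq hg, hm, hp.2]⟩
  have sw : ∀ p q, ∫ ω, Φ (p * X) q ω o o ∂μ = ∫ ω, Φ p (q * X) ω o o ∂μ := by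
    intro p q
    simp only [hl, hr']
    exact transport hM hS hg hT hm (good p q).2 hs fun x s h y z => hb x s h ((good p q).1 y z)
  let l : ℝ[X] →ₗ[ℝ] ℝ :=
    { toFun := fun p => ∫ ω, Φ p 1 ω o o ∂μ
      map_add' := fun p q => by
        rw [← integral_add ((good p 1).1 o o) ((good q 1).1 o o)]
        simp only [Φ, map_add, LinearMap.add_apply]
      map_smul' := fun r p => by
        simp only [Φ, map_smul, LinearMap.smul_apply, smul_eq_mul, RingHom.id_apply,
          integral_const_mul] }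
  have key : ∀ q p, ∫ ω, Φ p q ω o o ∂μ = l (p * q) := by
    intro q
    induction q using poly_ind with
    | h1 => intro p; rw [mul_one]; rfl
    | hadd q q' hq hq' =>
      intro p
      rw [mul_add, map_add, ← hq, ← hq', ← integral_add ((good p q).1 o o) ((good p q').1 o o)]
      simp only [Φ, map_add]
    | hs r q hq =>
      intro p
      rw [mul_smul_comm, map_smul, ← hq, smul_eq_mul, ← integral_const_mul]
      simp only [Φ, map_smul, smul_eq_mul]
    | hX q hq => intro p; rw [← sw, hq]; congr 1; ring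
  have hC : Cls' 1 l := by
    refine ⟨?_, fun p => ?_⟩
    · change ∫ ω, Φ 1 1 ω o o ∂μ = 1
      simp only [Φ, row_one, bf_single]
      rw [integral_congr_ae c1]
      simp
    · rw [one_mul, ← abs_le, show X * p ^ 2 = p * X * p by ring, sq, ← key, ← key]
      have i1 := (good p p).1
      have t := transport (w := fun ω x s => |m ω x s|) (F := fun ω x _ => Φ p p ω x x) hM hS hg hT
        (fun g ω x s => by rw [hm]) (fun g ω x _ => (good p p).2 g ω x x)
        (fun ω x y => by rw [hs ω x y]) fun x s h y _ => hb' x s h (i1 y y)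
      have j1 : Integrable (fun ω => ∑ s ∈ S o, |m ω o s| * Φ p p ω s s) μ :=
        integrable_finsetSum _ fun s h => hb' o s h (i1 s s)
      have j2 : Integrable (fun ω => ∑ s ∈ S o, |m ω o s| * Φ p p ω o o) μ :=
        integrable_finsetSum _ fun s h => hb' o s h (i1 o o)
      have u1 : ∫ ω, ∑ s ∈ S o, |m ω o s| * Φ p p ω o o ∂μ ≤ ∫ ω, Φ p p ω o o ∂μ := by
        refine integral_mono_ae j2 (i1 o o) (psd.mono fun ω h => ?_)
        have h2 : 0 ≤ Φ p p ω o o := by
          have := (abs_nonneg _).trans (h (row S (m ω) o p) (row S (m ω) o p))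
          simp only [Φ]; linarith
        dsimp only
        rw [← sum_mul]
        nlinarith [hr ω o]
      have u2 : ∫ ω, |Φ (p * X) p ω o o| ∂μ ≤ ∫ ω, (∑ s ∈ S o, |m ω o s| * Φ p p ω s s +
          ∑ s ∈ S o, |m ω o s| * Φ p p ω o o) / 2 ∂μ := by
        refine integral_mono_ae ((good _ p).1 o o).abs ((j1.add j2).div_const 2)
          (psd.mono fun ω h => ?_)
        dsimp only
        rw [hl, ← sum_add_distrib, sum_div]
        refine (abs_sum_le_sum_abs _ _).trans (sum_le_sum fun s _ => ?_)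
        rw [abs_mul, ← mul_add, mul_div_assoc]
        exact mul_le_mul_of_nonneg_left (h _ _) (abs_nonneg _)
      rw [integral_div, integral_add j1 j2, t] at u2
      exact (abs_integral_le_integral_abs.trans u2).trans (by linarith)
  have e : ∫ ω, ∑ s ∈ S o, m ω o s * c ω s o ∂μ = l X := by
    rw [← one_mul X]
    change _ = ∫ ω, Φ (1 * X) 1 ω o o ∂μ
    simp only [hl]
    simp only [Φ, row_one, bf_single]
  rw [e]
  refine le_of_forall_pos_le_add fun ε hε => ?_
  obtain ⟨C, v, hC0, vi, hv, hD⟩ := hD (ε / 7) (by positivity)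
  obtain ⟨p, hp, hp'⟩ := exists_poly' (s1 := ρ + ε / 7) h0 (by linarith) h1
    (θ := ε / 7 / C) (by positivity)
  obtain ⟨a1, a2⟩ := hp l hC
  have i1 := ((good p p).1 o o).const_mul (ε / 7)
  have i2 : Integrable (fun ω => ε / 7 + ε / 7 * Φ p p ω o o) μ := (integrable_const _).add i1
  have a3 : l p ≤ ∫ ω, ε / 7 + ε / 7 * Φ p p ω o o + v ω ∂μ := by
    refine integral_mono_ae ((good p 1).1 o o) (i2.add vi)
      (hD.mono fun ω h => ?_)
    have b1 := h (row S (m ω) o p)
    have b2 := mul_le_mul_of_nonneg_left (reg_bound hS (hs ω) (hr ω) o (hρ ω) hp') hC0.le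
    rw [mul_div_cancel₀ _ hC0.ne'] at b2
    simp only [Φ, row_one]
    linarith
  rw [integral_add i2 vi, integral_add (integrable_const _) i1,
    integral_const_mul, key, ← sq] at a3
  simp only [integral_const, probReal_univ, smul_eq_mul, one_mul] at a3
  nlinarith

end Pool.Agent.P.MP_81d17b_pr.NA
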