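import Pool.Agent.P.MP_81d17b_pr.NA.Cov

/-! The boundary condition has an influence at low temperature. -/

namespace Pool.Agent.P.MP_81d17b_pr.NA

open MeasureTheory ProbabilityTheory Real Finset Function Filter Topology

set_option linter.unusedSectionVars false

/-- Three-valued threshold function. -/
noncomputable def th (ε c : ℝ) : ℝ := if 1 - ε ≤ c then 1 else if c ≤ -(1 - ε) then -1 else 0

theorem th_cases (ε c : ℝ) : th ε c = 0 ∨ th ε c = 1 ∨ th ε c = -1 := by
  unfold th
  split_ifs <;> simp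

theorem th_mul (ε c : ℝ) : (1 - ε) * th ε c ^ 2 ≤ th ε c * c := by
  unfold th
  split_ifs <;> nlinarith

theorem th_sq {ε c : ℝ} (h : ¬|c| < 1 - ε) : th ε c ^ 2 = 1 := by
  unfold th
  rw [abs_lt] at h
  split_ifs with a b
  · simp
  · simp
  · exact absurd ⟨by linarith [not_le.1 b], not_le.1 a⟩ h

theorem th_meas (ε : ℝ) : Measurable (th ε) :=
  Measurable.ite measurableSet_Ici measurable_const
    (Measurable.ite measurableSet_Iic measurable_const measurable_const)

variable {G : Type} [DecidableEq G] [Countable G] {H : SimpleGraph G} [H.LocallyFinite]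
  {Γ : Type} [Group Γ] [MulAction Γ G]

theorem not_UU (hg : ∀ (g : Γ) x y, H.Adj (g • x) (g • y) ↔ H.Adj x y)
    (ht : ∀ x y : G, ∃ g : Γ, g • x = y)
    (hu : ∀ x y, H.Adj x y → (MulAction.orbit (MulAction.stabilizer Γ x) y).ncard =
      (MulAction.orbit (MulAction.stabilizer Γ y) x).ncard) (o : G) {h a : ℝ}
    (hiso : ∀ K : Finset G, h * K.card ≤ ∑ x ∈ K, ((H.neighborFinset x \ K).card : ℝ))
    (ν : Measure ℝ) [IsProbabilityMeasure ν] (ha : ∀ u, ν.real {u} ≤ a)
    (hah : a * H.degree o < h) : ∃ β0 : ℝ, ∀ β ≥ β0, ∀ (μ : Measure (Sym2 G → ℝ))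
      [IsProbabilityMeasure μ], (∀ g : Γ, MeasurePreserving (act g) μ μ) →
      iIndepFun (fun e (K : Sym2 G → ℝ) => K e) μ →
      (∀ s, H.Adj o s → μ.map (fun K => K s(o, s)) = ν) → ¬∀ᵐ K ∂μ, K ∈ UU β H := by
  set S : G → Finset G := fun x => H.neighborFinset x with hSd
  set D := H.degree o with hDd
  have hS : ∀ x y, y ∈ S x → x ∈ S y := fun x y => by simpa [S] using H.adj_symm
  have h1 : ∀ x, x ∉ S x := fun x => by simp [S]
  have hg' : ∀ (g : Γ) x y, g • y ∈ S (g • x) ↔ y ∈ S x := fun g x y => by simp [S, hg]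
  have hD : ∀ x, (S x).card = D := fun x => by
    obtain ⟨g, rfl⟩ := ht o x
    have := sum_smul_eq hg' g o fun _ => 1
    simp only [sum_const, nsmul_eq_mul, mul_one, Nat.cast_inj] at this
    exact this
  have hM : MTP Γ S o := mtp_of hS hg' ht fun x y hy => hu x y (by simpa [S] using hy)
  have a0 : 0 ≤ a := measureReal_nonneg.trans (ha 0)
  have hhD : h ≤ D := by
    have := hiso {o}
    simp only [card_singleton, Nat.cast_one, mul_one, sum_singleton] at this
    refine this.trans ?_
    rw [← hD o]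
    exact_mod_cast card_le_card sdiff_subset
  have h0 : 0 < h := lt_of_le_of_lt (by positivity) hah
  have D0 : (0 : ℝ) < D := h0.trans_le hhD
  obtain ⟨b, hab, hb⟩ := exists_between ((lt_div_iff₀ D0).2 hah)
  rw [lt_div_iff₀ D0] at hb
  have b0 : 0 < b := a0.trans_lt hab
  set γ := h - b * D with hγ
  have γ0 : 0 < γ := sub_pos.2 hb
  set κ := 1 + D / γ with hκ
  have κ1 : 1 ≤ κ := le_add_of_nonneg_right (by positivity)
  have κ0 : 0 < κ := by linarith
  have k2 : D / (2 * κ) < γ / 2 := by
    rw [div_lt_div_iff₀ (by positivity) two_pos, hκ]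
    have : γ * (D / γ) = D := by field_simp
    nlinarith
  set ε := γ / (2 * D * κ) with hε
  have ε0 : 0 < ε := by positivity
  have e2 : D * (κ * ε) = γ / 2 := by rw [hε]; field_simp
  have e3 : κ * ε ≤ 1 := by
    have : 0 < b * D := by positivity
    nlinarith
  obtain ⟨r, r0, hr⟩ := small_int ν ha hab
  refine ⟨5 / (r * ε ^ 2), fun β hβ μ _ hT hi hν hU => ?_⟩
  have hβ' : 4 < β * r * ε ^ 2 := by
    have := (div_le_iff₀ (by positivity)).1 hβ
    nlinarith
  let t : (Sym2 G → ℝ) → G → G → ℝ := fun K x y => th ε (cc β H K x y)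
  have tm : ∀ x y, AEMeasurable (fun K => t K x y) μ := fun x y =>
    (th_meas ε).comp_aemeasurable (cc_meas hU x y)
  have ts : ∀ K x y, t K y x = t K x y := fun K x y => by simp only [t, cc_symm y x]
  have ta : ∀ (g : Γ) K x y, t (act g K) (g • x) (g • y) = t K x y := fun g K x y => by
    simp only [t, cc_act hg]
  have ci : ∀ x y, Integrable (fun K => cc β H K x y) μ := fun x y =>
    (integrable_const 1).mono' (cc_meas hU x y).aestronglyMeasurable
      (hU.mono fun K hK => abs_cc hK x y)
  have mm : ∀ x s, AEStronglyMeasurable (fun K => wgt S D κ (t K) x s) μ := fun x s => by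
    unfold wgt
    split_ifs
    · exact (((Finset.aemeasurable_fun_sum _ fun r _ => (tm x r).pow_const 2).const_mul
        _).div_const _).aestronglyMeasurable
    · exact (((tm x s).const_mul _).div_const _).aestronglyMeasurable
  have B0 : 0 < 2 * κ * D := by positivity
  have k3 : 0 ≤ D / (2 * κ) := by positivity
  have k4 : D / (2 * κ) ≤ D := div_le_self D0.le (by linarith)
  have key := principle (S := fun x => insert x (S x)) (o := o) (T := act)
    (m := fun K => wgt S D κ (t K)) (c := cc β H) (fun f hf => by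
      rw [sum_insert (h1 o), sum_insert (h1 o), hM f hf])
    (fun x y hy => mem_insert.2 ((mem_insert.1 hy).imp Eq.symm (hS x y)))
    (fun g x y => by simp [hg']) hT
    (fun g K x s => by simp only [wgt, ta, smul_left_cancel_iff, sum_smul_eq hg'])
    (fun g K x y => cc_act hg g x y) (fun K x y => by
      by_cases e : x = y
      · rw [e]
      · rw [wgt, wgt, if_neg e, if_neg (Ne.symm e), ts])
    (fun K x => wgt_row h1 hD κ1 (fun _ _ => th_cases _ _) x) mm ci
    (hU.mono fun K hK => cc_one hK o) (hU.mono fun K hK => cc_psd hK)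
    (ρ := (D - h + D / (2 * κ)) / (2 * κ * D))
    (lt_of_lt_of_le (by norm_num) (div_nonneg (by linarith) B0.le))
    (div_le_one_of_le₀ (by nlinarith) B0.le)
    (fun K => wgt_top hS h1 hD κ1 hiso (fun _ _ => th_cases _ _) (ts K)) (exists_dec hU)
  let A : G → Set (Sym2 G → ℝ) := fun s => toMeasurable μ {K | |cc β H K o s| < 1 - ε}
  have hA : ∀ s, MeasurableSet (A s) := fun s => measurableSet_toMeasurable _ _
  have iA : ∀ s, Integrable (fun K => 1 - (A s).indicator (fun _ => (1 : ℝ)) K) μ := fun s =>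
    (integrable_const 1).sub ((integrable_const 1).indicator (hA s))
  have low : ∫ K, (1 - κ * ε) * (∑ s ∈ S o, (1 - (A s).indicator (fun _ => (1 : ℝ)) K)) /
      (2 * κ * D) ∂μ ≤ ∫ K, ∑ s ∈ insert o (S o), wgt S D κ (t K) o s * cc β H K s o ∂μ := by
    refine integral_mono_ae (((integrable_finsetSum _ fun s _ => iA s).const_mul _).div_const _)
      (integrable_finsetSum _ fun s hs => (ci s o).bdd_mul (c := 1) (mm o s)
        (Eventually.of_forall fun K => (single_le_sum (f := fun s => |wgt S D κ (t K) o s|)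
          (fun _ _ => abs_nonneg _) hs).trans (wgt_row h1 hD κ1 (fun _ _ => th_cases _ _) o)))
      (hU.mono fun K hK => ?_)
    dsimp only
    rw [sum_wgt h1 o fun s => cc β H K s o, mul_sum, cc_one hK]
    refine div_le_div_of_nonneg_right (sum_le_sum fun s _ => ?_) B0.le
    have a1 := th_mul ε (cc β H K o s)
    have a2 : 1 - (A s).indicator (fun _ => (1 : ℝ)) K ≤ t K o s ^ 2 := by
      by_cases a3 : K ∈ A s
      · rw [Set.indicator_of_mem a3, sub_self]
        exact sq_nonneg _
      · rw [Set.indicator_of_notMem a3, sub_zero,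
          th_sq fun a4 => a3 (subset_toMeasurable _ _ a4)]
    rw [cc_symm s o]
    nlinarith [mul_le_mul_of_nonneg_left a2 (sub_nonneg.2 e3), mul_le_mul_of_nonneg_left a1 κ0.le]
  have l2 : D * (1 - b) ≤ ∑ s ∈ S o, ∫ K, (1 - (A s).indicator (fun _ => (1 : ℝ)) K) ∂μ := by
    rw [← hD o, ← nsmul_eq_mul]
    refine card_nsmul_le_sum _ _ _ fun s hs => ?_
    have hs' : H.Adj o s := by simpa [S] using hs
    rw [integral_sub (integrable_const 1) ((integrable_const 1).indicator (hA s)),
      integral_indicator (hA s)]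
    simp only [integral_const, probReal_univ, smul_eq_mul, mul_one, measureReal_restrict_apply_univ]
    rw [sub_le_sub_iff_left, measureReal_def, measure_toMeasurable]
    exact ENNReal.toReal_le_of_le_ofReal b0.le (edge_inf hU hi hs' (hν s hs') ε0 r0 hβ' hr)
  rw [integral_div, integral_const_mul, integral_finsetSum _ fun s _ => iA s] at low
  have l3 := (div_le_div_iff_of_pos_right B0).1 (low.trans key)
  nlinarith [mul_le_mul_of_nonneg_left l2 (sub_nonneg.2 e3), mul_pos b0 γ0]

theorem main (hg : ∀ (g : Γ) x y, H.Adj (g • x) (g • y) ↔ H.Adj x y)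
    (ht : ∀ x y : G, ∃ g : Γ, g • x = y)
    (hu : ∀ x y, H.Adj x y → (MulAction.orbit (MulAction.stabilizer Γ x) y).ncard =
      (MulAction.orbit (MulAction.stabilizer Γ y) x).ncard) (o : G) {h a : ℝ}
    (hiso : ∀ K : Finset G, h * K.card ≤ ∑ x ∈ K, ((H.neighborFinset x \ K).card : ℝ))
    (ν : Measure ℝ) [IsProbabilityMeasure ν] (ha : ∀ u, ν.real {u} ≤ a)
    (hah : a * H.degree o < h) : ∃ β0 : ℝ, ∀ β ≥ β0, ∀ (Ω : Type) [MeasurableSpace Ω]
      (P : Measure Ω) (J : Sym2 G → Ω → ℝ), (∀ e, Measurable (J e)) → iIndepFun J P →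
      (∀ e ∈ H.edgeSet, P.map (J e) = ν) → ∀ᵐ ω ∂P, ∃ m m', IsDLR β H (fun e => J e ω) m ∧
        IsDLR β H (fun e => J e ω) m' ∧ m ≠ m' := by
  classical
  obtain ⟨β0, h0⟩ := not_UU hg ht hu o hiso ν ha hah
  refine ⟨β0, fun β hβ Ω _ P J hJ hi hν => ?_⟩
  have := hi.isProbabilityMeasure
  let φ : Sym2 G → ℝ → ℝ := fun e u => if e ∈ H.edgeSet then u else 0
  have hφ : ∀ e, Measurable (φ e) := fun e => by
    simp only [φ]
    split_ifs <;> fun_prop
  let J' : Sym2 G → Ω → ℝ := fun e => φ e ∘ J e
  have hJ' : ∀ e, Measurable (J' e) := fun e => (hφ e).comp (hJ e)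
  have hi' : iIndepFun J' P := hi.comp φ hφ
  have hm : Measurable fun ω e => J' e ω := measurable_pi_iff.2 hJ'
  let L : Sym2 G → Measure ℝ := fun e => if e ∈ H.edgeSet then ν else Measure.dirac 0
  have hL : ∀ e, P.map (J' e) = L e := fun e => by
    by_cases he : e ∈ H.edgeSet
    · simp only [J', φ, L, he, if_true]
      exact hν e he
    · simp [J', φ, L, he, comp_def]
  have : ∀ e, IsProbabilityMeasure (L e) := fun e => by
    simp only [L]
    split_ifs <;> infer_instance
  have hμ := hi'.map_fun_eq_infinitePi_map hJ'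
  simp only [hL] at hμ
  rcases zero_one hJ' hi' (meas_UU (β := β) (S := H)) inv_UU with h1 | h1
  · refine absurd ?_ (h0 β hβ (Measure.infinitePi L) (fun g => ⟨?_, ?_⟩)
      (iIndepFun_infinitePi (X := fun _ u => u) (by fun_prop)) fun s hs => ?_)
    · rw [← hμ]
      exact (ae_map_iff hm.aemeasurable meas_UU).2 h1
    · unfold act
      fun_prop
    · refine (Measure.map_infinitePi_infinitePi_of_inj (P := L)
        (Sym2.map.injective (MulAction.injective g⁻¹))).trans ?_
      congr 1
      funext e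
      induction e using Sym2.ind with
      | h x y => simp [L, hg]
    · rw [Measure.infinitePi_map_eval]
      simp [L, hs]
  · refine h1.mono fun ω hω => ?_
    have e : kern β H (fun e => J e ω) = kern β H fun e => J' e ω := by
      have : ham H (fun e => J e ω) = ham H fun e => J' e ω := by
        funext Λ σ
        refine sum_congr rfl fun e he => ?_
        obtain ⟨x, _, y, hy, rfl⟩ := mem_edges.1 he
        simp [J', φ, hy]
      funext Λ τ η
      simp only [kern, this]
    simp only [IsDLR, e]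
    exact two_states hω

end Pool.Agent.P.MP_81d17b_pr.NA
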