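import Pool.Agent.P.MP_81d17b_pr.NA.Main

/-! The version with an expanding invariant subgraph and laws depending on the edge. -/

namespace Pool.Agent.P.MP_81d17b_pr.NA

open MeasureTheory ProbabilityTheory Real Finset Function Filter Topology

set_option linter.unusedSectionVars false

variable {G : Type} [DecidableEq G] [Countable G] {H F : SimpleGraph G} [H.LocallyFinite]
  [F.LocallyFinite] {Γ : Type} [Group Γ] [MulAction Γ G]

theorem not_UU2 (hle : F ≤ H) (hg : ∀ (g : Γ) x y, H.Adj (g • x) (g • y) ↔ H.Adj x y)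
    (hf : ∀ (g : Γ) x y, F.Adj (g • x) (g • y) ↔ F.Adj x y) (ht : ∀ x y : G, ∃ g : Γ, g • x = y)
    (hu : ∀ x y, F.Adj x y → (MulAction.orbit (MulAction.stabilizer Γ x) y).ncard =
      (MulAction.orbit (MulAction.stabilizer Γ y) x).ncard) (o : G) {h a : ℝ}
    (hiso : ∀ K : Finset G, h * K.card ≤ ∑ x ∈ K, ((F.neighborFinset x \ K).card : ℝ))
    (ν : Sym2 G → Measure ℝ) [∀ e, IsProbabilityMeasure (ν e)]
    (ha : ∀ e ∈ F.edgeSet, ∀ u, (ν e).real {u} ≤ a)
    (hah : a * F.degree o < h) : ∃ β0 : ℝ, ∀ β ≥ β0, ∀ (μ : Measure (Sym2 G → ℝ))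
      [IsProbabilityMeasure μ], (∀ g : Γ, MeasurePreserving (act g) μ μ) →
      iIndepFun (fun e (K : Sym2 G → ℝ) => K e) μ →
      (∀ e, μ.map (fun K => K e) = ν e) → ¬∀ᵐ K ∂μ, K ∈ UU β H := by
  set S : G → Finset G := fun x => F.neighborFinset x with hSd
  set D := F.degree o with hDd
  have hS : ∀ x y, y ∈ S x → x ∈ S y := fun x y => by simpa [S] using F.adj_symm
  have h1 : ∀ x, x ∉ S x := fun x => by simp [S]
  have hg' : ∀ (g : Γ) x y, g • y ∈ S (g • x) ↔ y ∈ S x := fun g x y => by simp [S, hf]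
  have hD : ∀ x, (S x).card = D := fun x => by
    obtain ⟨g, rfl⟩ := ht o x
    have := sum_smul_eq hg' g o fun _ => 1
    simp only [sum_const, nsmul_eq_mul, mul_one, Nat.cast_inj] at this
    exact this
  have hM : MTP Γ S o := mtp_of hS hg' ht fun x y hy => hu x y (by simpa [S] using hy)
  have hhD : h ≤ D := by
    have := hiso {o}
    simp only [card_singleton, Nat.cast_one, mul_one, sum_singleton] at this
    refine this.trans ?_
    rw [← hD o]
    exact_mod_cast card_le_card sdiff_subset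
  have D0 : (0 : ℝ) < D := (Nat.cast_nonneg D).lt_of_ne fun e => by
    rw [← e] at hah hhD
    linarith
  obtain ⟨s0, hs0⟩ := card_pos.1 (show 0 < (S o).card by rw [hD]; exact_mod_cast D0)
  have a0 : 0 ≤ a := measureReal_nonneg.trans (ha s(o, s0) (by simpa [S] using hs0) 0)
  have h0 : 0 < h := lt_of_le_of_lt (by positivity) hah
  obtain ⟨b, hab, hb⟩ := exists_between ((lt_div_iff₀ D0).2 hah)
  rw [lt_div_iff₀ D0] at hb
  have b0 : 0 < b := a0.trans_lt hab
  set γ := h - b * D with hγ
  have γ0 : 0 < γ := sub_pos.2 hb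
  set κ := 1 + D / γ with hκ
  have κ1 : 1 ≤ κ := le_add_of_nonneg_right (by positivity)
  have κ0 : 0 < κ := by linarith
  have k2 : D / (2 * κ) < γ / 2 := by
    rw [div_lt_div_iff₀ (by positivity) two_pos, hκ]
    have : γ * (D / γ) = D := by field_simp
    nlinarith
  set ε := γ / (2 * D * κ) with hε
  have ε0 : 0 < ε := by positivity
  have e2 : D * (κ * ε) = γ / 2 := by rw [hε]; field_simp
  have e3 : κ * ε ≤ 1 := by
    have : 0 < b * D := by positivity
    nlinarith
  obtain ⟨r, hr, r0⟩ : ∃ r : ℝ, (∀ s ∈ S o, ∀ u, ν s(o, s) (Metric.ball u r) ≤ ENNReal.ofReal b) ∧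
      0 < r := (((eventually_all_finset (l := 𝓝[>] (0 : ℝ)) _).2 fun s hs => by
        obtain ⟨r, r0, hr⟩ := small_int (ν s(o, s)) (ha _ (by simpa [S] using hs)) hab
        exact ((eventually_le_nhds r0).filter_mono nhdsWithin_le_nhds).mono
          fun r' h' u => (measure_mono (Metric.ball_subset_ball h')).trans (hr u)).and
      self_mem_nhdsWithin).exists
  refine ⟨5 / (r * ε ^ 2), fun β hβ μ _ hT hi hν hU => ?_⟩
  have hβ' : 4 < β * r * ε ^ 2 := by
    have := (div_le_iff₀ (by positivity)).1 hβ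
    nlinarith
  let t : (Sym2 G → ℝ) → G → G → ℝ := fun K x y => th ε (cc β H K x y)
  have tm : ∀ x y, AEMeasurable (fun K => t K x y) μ := fun x y =>
    (th_meas ε).comp_aemeasurable (cc_meas hU x y)
  have ts : ∀ K x y, t K y x = t K x y := fun K x y => by simp only [t, cc_symm y x]
  have ta : ∀ (g : Γ) K x y, t (act g K) (g • x) (g • y) = t K x y := fun g K x y => by
    simp only [t, cc_act hg]
  have ci : ∀ x y, Integrable (fun K => cc β H K x y) μ := fun x y =>
    (integrable_const 1).mono' (cc_meas hU x y).aestronglyMeasurable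
      (hU.mono fun K hK => abs_cc hK x y)
  have mm : ∀ x s, AEStronglyMeasurable (fun K => wgt S D κ (t K) x s) μ := fun x s => by
    unfold wgt
    split_ifs
    · exact (((Finset.aemeasurable_fun_sum _ fun r _ => (tm x r).pow_const 2).const_mul
        _).div_const _).aestronglyMeasurable
    · exact (((tm x s).const_mul _).div_const _).aestronglyMeasurable
  have B0 : 0 < 2 * κ * D := by positivity
  have k3 : 0 ≤ D / (2 * κ) := by positivity
  have k4 : D / (2 * κ) ≤ D := div_le_self D0.le (by linarith)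
  have key := principle (S := fun x => insert x (S x)) (o := o) (T := act)
    (m := fun K => wgt S D κ (t K)) (c := cc β H) (fun f hf => by
      rw [sum_insert (h1 o), sum_insert (h1 o), hM f hf])
    (fun x y hy => mem_insert.2 ((mem_insert.1 hy).imp Eq.symm (hS x y)))
    (fun g x y => by simp [hg']) hT
    (fun g K x s => by simp only [wgt, ta, smul_left_cancel_iff, sum_smul_eq hg'])
    (fun g K x y => cc_act hg g x y) (fun K x y => by
      by_cases e : x = y
      · rw [e]
      · rw [wgt, wgt, if_neg e, if_neg (Ne.symm e), ts])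
    (fun K x => wgt_row h1 hD κ1 (fun _ _ => th_cases _ _) x) mm ci
    (hU.mono fun K hK => cc_one hK o) (hU.mono fun K hK => cc_psd hK)
    (ρ := (D - h + D / (2 * κ)) / (2 * κ * D))
    (lt_of_lt_of_le (by norm_num) (div_nonneg (by linarith) B0.le))
    (div_le_one_of_le₀ (by nlinarith) B0.le)
    (fun K => wgt_top hS h1 hD κ1 hiso (fun _ _ => th_cases _ _) (ts K)) (exists_dec hU)
  let A : G → Set (Sym2 G → ℝ) := fun s => toMeasurable μ {K | |cc β H K o s| < 1 - ε}
  have hA : ∀ s, MeasurableSet (A s) := fun s => measurableSet_toMeasurable _ _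
  have iA : ∀ s, Integrable (fun K => 1 - (A s).indicator (fun _ => (1 : ℝ)) K) μ := fun s =>
    (integrable_const 1).sub ((integrable_const 1).indicator (hA s))
  have low : ∫ K, (1 - κ * ε) * (∑ s ∈ S o, (1 - (A s).indicator (fun _ => (1 : ℝ)) K)) /
      (2 * κ * D) ∂μ ≤ ∫ K, ∑ s ∈ insert o (S o), wgt S D κ (t K) o s * cc β H K s o ∂μ := by
    refine integral_mono_ae (((integrable_finsetSum _ fun s _ => iA s).const_mul _).div_const _)
      (integrable_finsetSum _ fun s hs => (ci s o).bdd_mul (c := 1) (mm o s)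
        (Eventually.of_forall fun K => (single_le_sum (f := fun s => |wgt S D κ (t K) o s|)
          (fun _ _ => abs_nonneg _) hs).trans (wgt_row h1 hD κ1 (fun _ _ => th_cases _ _) o)))
      (hU.mono fun K hK => ?_)
    dsimp only
    rw [sum_wgt h1 o fun s => cc β H K s o, mul_sum, cc_one hK]
    refine div_le_div_of_nonneg_right (sum_le_sum fun s _ => ?_) B0.le
    have a1 := th_mul ε (cc β H K o s)
    have a2 : 1 - (A s).indicator (fun _ => (1 : ℝ)) K ≤ t K o s ^ 2 := by
      by_cases a3 : K ∈ A s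
      · rw [Set.indicator_of_mem a3, sub_self]
        exact sq_nonneg _
      · rw [Set.indicator_of_notMem a3, sub_zero,
          th_sq fun a4 => a3 (subset_toMeasurable _ _ a4)]
    rw [cc_symm s o]
    nlinarith [mul_le_mul_of_nonneg_left a2 (sub_nonneg.2 e3), mul_le_mul_of_nonneg_left a1 κ0.le]
  have l2 : D * (1 - b) ≤ ∑ s ∈ S o, ∫ K, (1 - (A s).indicator (fun _ => (1 : ℝ)) K) ∂μ := by
    rw [← hD o, ← nsmul_eq_mul]
    refine card_nsmul_le_sum _ _ _ fun s hs => ?_
    have hs' : H.Adj o s := hle (by simpa [S] using hs)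
    rw [integral_sub (integrable_const 1) ((integrable_const 1).indicator (hA s)),
      integral_indicator (hA s)]
    simp only [integral_const, probReal_univ, smul_eq_mul, mul_one, measureReal_restrict_apply_univ]
    rw [sub_le_sub_iff_left, measureReal_def, measure_toMeasurable]
    exact ENNReal.toReal_le_of_le_ofReal b0.le (edge_inf hU hi hs' (hν _) ε0 r0 hβ' (hr s hs))
  rw [integral_div, integral_const_mul, integral_finsetSum _ fun s _ => iA s] at low
  have l3 := (div_le_div_iff_of_pos_right B0).1 (low.trans key)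
  nlinarith [mul_le_mul_of_nonneg_left l2 (sub_nonneg.2 e3), mul_pos b0 γ0]

theorem main2 (hle : F ≤ H) (hg : ∀ (g : Γ) x y, H.Adj (g • x) (g • y) ↔ H.Adj x y)
    (hf : ∀ (g : Γ) x y, F.Adj (g • x) (g • y) ↔ F.Adj x y) (ht : ∀ x y : G, ∃ g : Γ, g • x = y)
    (hu : ∀ x y, F.Adj x y → (MulAction.orbit (MulAction.stabilizer Γ x) y).ncard =
      (MulAction.orbit (MulAction.stabilizer Γ y) x).ncard) (o : G) {h a : ℝ}
    (hiso : ∀ K : Finset G, h * K.card ≤ ∑ x ∈ K, ((F.neighborFinset x \ K).card : ℝ))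
    (ν : Sym2 G → Measure ℝ) [∀ e, IsProbabilityMeasure (ν e)]
    (hν : ∀ (g : Γ) x y, ν s(g • x, g • y) = ν s(x, y))
    (ha : ∀ e ∈ F.edgeSet, ∀ u, (ν e).real {u} ≤ a)
    (hah : a * F.degree o < h) : ∃ β0 : ℝ, ∀ β ≥ β0, ∀ (Ω : Type) [MeasurableSpace Ω]
      (P : Measure Ω) (J : Sym2 G → Ω → ℝ), (∀ e, Measurable (J e)) → iIndepFun J P →
      (∀ e, P.map (J e) = ν e) → ∀ᵐ ω ∂P, ∃ m m', IsDLR β H (fun e => J e ω) m ∧
        IsDLR β H (fun e => J e ω) m' ∧ m ≠ m' := by
  obtain ⟨β0, h0⟩ := not_UU2 hle hg hf ht hu o hiso ν ha hah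
  refine ⟨β0, fun β hβ Ω _ P J hJ hi hL => ?_⟩
  have := hi.isProbabilityMeasure
  have hμ := hi.map_fun_eq_infinitePi_map hJ
  simp only [hL] at hμ
  rcases zero_one hJ hi (meas_UU (β := β) (S := H)) inv_UU with h1 | h1
  · refine absurd ?_ (h0 β hβ (Measure.infinitePi ν) (fun g => ⟨?_, ?_⟩)
      (iIndepFun_infinitePi (X := fun _ u => u) (by fun_prop)) (Measure.infinitePi_map_eval ν))
    · rw [← hμ]
      exact (ae_map_iff (measurable_pi_iff.2 hJ).aemeasurable meas_UU).2 h1
    · unfold act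
      fun_prop
    · refine (Measure.map_infinitePi_infinitePi_of_inj (P := ν)
        (Sym2.map.injective (MulAction.injective g⁻¹))).trans ?_
      congr 1
      funext e
      induction e using Sym2.ind with
      | h x y => exact hν _ x y
  · exact h1.mono fun ω => two_states

end Pool.Agent.P.MP_81d17b_pr.NA
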