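import Mathlib

/-! Moment functionals on an interval and a Bernstein polynomial that cuts off the top. -/

namespace Pool.Agent.P.MP_81d17b_pr.NA

open Polynomial Finset

/-- Normalised linear functionals that behave like moments of a measure on `[0, s]`. -/
def Cls (s : ℝ) (l : ℝ[X] →ₗ[ℝ] ℝ) : Prop :=
  l 1 = 1 ∧ ∀ p, 0 ≤ l (X * p ^ 2) ∧ 0 ≤ l ((C s - X) * p ^ 2)

variable {s : ℝ} {l : ℝ[X] →ₗ[ℝ] ℝ}

theorem lC (l : ℝ[X] →ₗ[ℝ] ℝ) (a : ℝ) (p : ℝ[X]) : l (C a * p) = a * l p := by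
  rw [← smul_eq_C_mul, map_smul, smul_eq_mul]

theorem Cls.mono (h : Cls s l) (hs : 0 < s) (i j : ℕ) (p : ℝ[X]) :
    0 ≤ l (X ^ i * (C s - X) ^ j * p ^ 2) := by
  obtain ⟨a, ha⟩ := Nat.even_or_odd' i
  obtain ⟨b, hb⟩ := Nat.even_or_odd' j
  set q := X ^ a * (C s - X) ^ b * p with hq
  have h1 := (h.2 q).1
  have h2 := (h.2 q).2
  have h3 := (h.2 ((C s - X) * q)).1
  have h4 := (h.2 (X * q)).2
  rcases ha with rfl | rfl <;> rcases hb with rfl | rfl
  · have e : l (C s * (X ^ (2 * a) * (C s - X) ^ (2 * b) * p ^ 2)) =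
        l (X * q ^ 2) + l ((C s - X) * q ^ 2) := by
      rw [← map_add, hq]; congr 1; ring
    rw [lC] at e
    exact nonneg_of_mul_nonneg_right (by linarith) hs |> fun t => t
  · convert h2 using 2; rw [hq]; ring
  · convert h1 using 2; rw [hq]; ring
  · have e : l (C s * (X ^ (2 * a + 1) * (C s - X) ^ (2 * b + 1) * p ^ 2)) =
        l (X * ((C s - X) * q) ^ 2) + l ((C s - X) * (X * q) ^ 2) := by
      rw [← map_add, hq]; congr 1; ring
    rw [lC] at e
    exact nonneg_of_mul_nonneg_right (by linarith) hs |> fun t => t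

theorem Cls.one (h : Cls s l) (hs : 0 < s) (h1 : s ≤ 1) : Cls 1 l := by
  refine ⟨h.1, fun p => ⟨(h.2 p).1, ?_⟩⟩
  have e : l ((C 1 - X) * p ^ 2) = l ((C s - X) * p ^ 2) + l (C (1 - s) * p ^ 2) := by
    rw [← map_add, map_sub C]; congr 1; ring
  have h2 := h.mono hs 0 0 p
  rw [e, lC]
  simp only [pow_zero, one_mul] at h2
  exact add_nonneg (h.2 p).2 (mul_nonneg (by linarith) h2)

/-- The cone generated by `X`, `1 - X` and the nonnegative constants. -/
noncomputable def cone : Subsemiring ℝ[X] := Subsemiring.closure ({X, 1 - X} ∪ C '' Set.Ici 0)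

theorem X_mem : (X : ℝ[X]) ∈ cone := Subsemiring.subset_closure (by simp)

theorem Y_mem : (1 - X : ℝ[X]) ∈ cone := Subsemiring.subset_closure (by simp)

theorem C_mem {a : ℝ} (h : 0 ≤ a) : C a ∈ cone :=
  Subsemiring.subset_closure (Or.inr ⟨a, h, rfl⟩)

theorem Cls.cone (h : Cls 1 l) {q : ℝ[X]} (hq : q ∈ cone) : 0 ≤ l q := by
  rw [NA.cone, Subsemiring.mem_closure_iff] at hq
  induction hq using AddSubmonoid.closure_induction with
  | zero => simp
  | add x y _ _ hx hy => rw [map_add]; exact add_nonneg hx hy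
  | mem x hx =>
    have : ∃ (a : ℝ) (i j : ℕ), 0 ≤ a ∧ x = C a * (X ^ i * (C 1 - X) ^ j * 1 ^ 2) := by
      induction hx using Submonoid.closure_induction with
      | one => exact ⟨1, 0, 0, zero_le_one, by simp⟩
      | mul x y _ _ hx hy =>
        obtain ⟨a, i, j, ha, rfl⟩ := hx
        obtain ⟨b, k, m, hb, rfl⟩ := hy
        exact ⟨a * b, i + k, j + m, mul_nonneg ha hb, by rw [map_mul]; ring⟩
      | mem x hx =>
        rcases hx with (rfl | rfl) | ⟨a, ha, rfl⟩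
        · exact ⟨1, 1, 0, zero_le_one, by simp⟩
        · exact ⟨1, 0, 1, zero_le_one, by simp⟩
        · exact ⟨a, 0, 0, ha, by simp⟩
    obtain ⟨a, i, j, ha, rfl⟩ := this
    rw [lC]
    exact mul_nonneg ha (h.mono one_pos i j 1)

theorem Cls.pow_le (h : Cls s l) (hs : 0 < s) (i : ℕ) : l (X ^ i) ≤ s ^ i := by
  induction i with
  | zero => simp [h.1]
  | succ i ih =>
    have h1 := h.mono hs i 1 1
    have e : l (X ^ i * (C s - X) ^ 1 * 1 ^ 2) = l (C s * X ^ i) - l (X ^ (i + 1)) := by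
      rw [← map_sub]; congr 1; ring
    rw [e, lC] at h1
    have := mul_le_mul_of_nonneg_left ih hs.le
    rw [pow_succ s]
    linarith

theorem Cls.mgf (h : Cls s l) (hs : 0 < s) {z : ℝ} (hz : 0 ≤ z) (m : ℕ) :
    ∀ i : ℕ, l ((1 + C z * X) ^ m * X ^ i) ≤ (1 + z * s) ^ m * s ^ i := by
  induction m with
  | zero => intro i; simpa using h.pow_le hs i
  | succ m ih =>
    intro i
    have e : l ((1 + C z * X) ^ (m + 1) * X ^ i) =
        l ((1 + C z * X) ^ m * X ^ i) + l (C z * ((1 + C z * X) ^ m * X ^ (i + 1))) := by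
      rw [← map_add]; congr 1; ring
    rw [e, lC]
    have := mul_le_mul_of_nonneg_left (ih (i + 1)) hz
    calc _ ≤ (1 + z * s) ^ m * s ^ i + z * ((1 + z * s) ^ m * s ^ (i + 1)) := add_le_add (ih i) this
      _ = _ := by ring

theorem b_mem (n k : ℕ) : bernsteinPolynomial ℝ n k ∈ cone :=
  mul_mem (mul_mem (natCast_mem _ _) (pow_mem X_mem _)) (pow_mem Y_mem _)

theorem exists_rate {s0 s1 : ℝ} (h0 : 0 < s0) (h01 : s0 < s1) {θ : ℝ} (hθ : 0 < θ) :
    ∃ (z : ℝ) (n k : ℕ), 0 ≤ z ∧ 0 < n ∧ (k : ℝ) ≤ s1 * n ∧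
      (1 + z * s0) ^ (2 * n) ≤ θ * (1 + z) ^ (2 * k) := by
  obtain ⟨s2, h2, h3⟩ := exists_between h01
  set z := s2 / s0 - 1 with hz
  have hz0 : 0 < z := by rw [hz, sub_pos, one_lt_div h0]; exact h2
  have hs2 : 0 < s2 := h0.trans h2
  have hl : s0 * z ≤ s2 * Real.log (1 + z) := by
    have h4 := Real.one_sub_inv_le_log_of_pos (show 0 < 1 + z by linarith)
    have e : s2 * (1 - (1 + z)⁻¹) = s0 * z := by
      have : 1 + z = s2 / s0 := by rw [hz]; ring
      rw [this, hz]; field_simp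
    rw [← e]
    exact mul_le_mul_of_nonneg_left h4 hs2.le
  have hL : 0 < Real.log (1 + z) := Real.log_pos (by linarith)
  obtain ⟨n, hn⟩ := exists_nat_gt ((2 * Real.log (1 + z) - Real.log θ) /
    (2 * (s1 - s2) * Real.log (1 + z)))
  have hd : 0 < 2 * (s1 - s2) * Real.log (1 + z) := by
    have : 0 < s1 - s2 := by linarith
    positivity
  rw [div_lt_iff₀ hd] at hn
  refine ⟨z, n + 1, ⌊s1 * (n + 1 : ℕ)⌋₊, hz0.le, n.succ_pos,
    Nat.floor_le (mul_nonneg (by linarith) (Nat.cast_nonneg _)), ?_⟩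
  have h5 := Nat.lt_floor_add_one (s1 * (n + 1 : ℕ))
  set k := ⌊s1 * (n + 1 : ℕ)⌋₊
  have h6 : (1 + z * s0) ^ (2 * (n + 1)) ≤ Real.exp (z * s0) ^ (2 * (n + 1)) :=
    pow_le_pow_left₀ (by positivity) (by linarith [Real.add_one_le_exp (z * s0)]) _
  refine h6.trans ?_
  rw [← Real.exp_nat_mul, ← Real.exp_log hθ, ← Real.exp_log (show 0 < 1 + z by linarith),
    ← Real.exp_nat_mul, ← Real.exp_add]
  refine Real.exp_le_exp.2 ?_
  push_cast at h5 ⊢
  have h7 : (0 : ℝ) ≤ n := Nat.cast_nonneg n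
  nlinarith [mul_le_mul_of_nonneg_left hl (show (0 : ℝ) ≤ n + 1 by linarith),
    mul_lt_mul_of_pos_right h5 hL]

theorem exists_poly {s0 s1 : ℝ} (h0 : 0 < s0) (h01 : s0 < s1) (h1 : s0 ≤ 1) {θ : ℝ}
    (hθ : 0 < θ) : ∃ p : ℝ[X], (∀ l, Cls 1 l → l X ≤ s1 + l p ∧ l (p ^ 2) ≤ 1) ∧
      ∀ l, Cls s0 l → l (p ^ 2) ≤ θ := by
  obtain ⟨z, n, k, hz, hn, hk, hr⟩ := exists_rate h0 h01 hθ
  set b := bernsteinPolynomial ℝ n with hb
  set p := ∑ i ∈ (range (n + 1)).filter fun i => k ≤ i, b i with hp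
  set p' := ∑ i ∈ (range (n + 1)).filter fun i => ¬k ≤ i, b i with hp'
  have hs : p + p' = 1 := by
    rw [hp, hp', sum_filter_add_sum_filter_not]; exact bernsteinPolynomial.sum ℝ n
  have hpm : p ∈ cone := sum_mem fun i _ => b_mem n i
  have hpm' : p' ∈ cone := sum_mem fun i _ => b_mem n i
  refine ⟨p, fun l hl => ⟨?_, ?_⟩, fun l hl => ?_⟩
  · have e : (C (k : ℝ) + C (n : ℝ) * p - C (n : ℝ) * X) =
        ∑ i ∈ range (n + 1), C ((k : ℝ) + (if k ≤ i then (n : ℝ) else 0) - i) * b i := by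
      have e1 : C (n : ℝ) * X = ∑ i ∈ range (n + 1), C (i : ℝ) * b i := by
        have := bernsteinPolynomial.sum_smul ℝ n
        simp only [nsmul_eq_mul] at this
        simp only [map_natCast]
        exact this.symm
      have e2 : C (k : ℝ) = ∑ i ∈ range (n + 1), C (k : ℝ) * b i := by
        rw [← mul_sum, hb, bernsteinPolynomial.sum, mul_one]
      rw [e1, hp, sum_filter, mul_sum]
      conv_lhs => rw [e2]
      rw [← sum_add_distrib, ← sum_sub_distrib]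
      refine sum_congr rfl fun i _ => ?_
      split_ifs <;> simp only [map_sub, map_add, map_zero] <;> ring
    have h2 := hl.cone (q := C (k : ℝ) + C (n : ℝ) * p - C (n : ℝ) * X) (by
      rw [e]
      refine sum_mem fun i hi => mul_mem (C_mem ?_) (b_mem n i)
      have h3 : (i : ℝ) ≤ n := by exact_mod_cast Nat.lt_succ_iff.1 (mem_range.1 hi)
      have h4 : (0 : ℝ) ≤ k := Nat.cast_nonneg k
      split_ifs with h5
      · linarith
      · have : (i : ℝ) ≤ k := by exact_mod_cast (not_le.1 h5).le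
        linarith)
    rw [map_sub, map_add, lC, lC, ← mul_one (C (k : ℝ)), lC, hl.1] at h2
    have h6 : (0 : ℝ) < n := by exact_mod_cast hn
    by_contra h7
    nlinarith [mul_lt_mul_of_pos_left (not_le.1 h7) h6]
  · have h2 := hl.cone (mul_mem hpm' (add_mem (one_mem _) hpm))
    have e : p' * (1 + p) = 1 - p ^ 2 := by
      rw [eq_sub_of_add_eq' hs]; ring
    rw [e, map_sub, hl.1] at h2
    linarith
  · set A : ℝ[X] := (1 + C z * X) ^ n with hA
    have e : A = ∑ i ∈ range (n + 1), C ((1 + z) ^ i) * b i := by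
      rw [hA, show (1 + C z * X : ℝ[X]) = C (1 + z) * X + (1 - X) by rw [map_add, map_one]; ring,
        add_pow]
      refine sum_congr rfl fun i _ => ?_
      rw [hb, bernsteinPolynomial, map_pow]
      ring
    have hz1 : 1 ≤ 1 + z := by linarith
    have h2 : A - C ((1 + z) ^ k) * p ∈ cone := by
      rw [e, hp, sum_filter, mul_sum, ← sum_sub_distrib]
      refine sum_mem fun i _ => ?_
      split_ifs with h3
      · rw [← sub_mul, ← map_sub]
        exact mul_mem (C_mem (sub_nonneg.2 (pow_le_pow_right₀ hz1 h3))) (b_mem n i)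
      · rw [mul_zero, sub_zero]
        exact mul_mem (C_mem (by positivity)) (b_mem n i)
    have h3 : A + C ((1 + z) ^ k) * p ∈ cone :=
      add_mem (pow_mem (add_mem (one_mem _) (mul_mem (C_mem hz) X_mem)) _)
        (mul_mem (C_mem (by positivity)) hpm)
    have h4 := (hl.one h0 h1).cone (mul_mem h2 h3)
    have e2 : (A - C ((1 + z) ^ k) * p) * (A + C ((1 + z) ^ k) * p) =
        (1 + C z * X) ^ (2 * n) * X ^ 0 - C ((1 + z) ^ (2 * k)) * p ^ 2 := by
      rw [hA]; simp only [map_pow]; ring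
    rw [e2, map_sub, lC] at h4
    have h5 := hl.mgf h0 hz (2 * n) 0
    rw [pow_zero s0, mul_one] at h5
    have h6 : (0 : ℝ) < (1 + z) ^ (2 * k) := by positivity
    by_contra h7
    nlinarith [mul_lt_mul_of_pos_left (not_le.1 h7) h6]

/-- The same on `[-1, s]`. -/
def Cls' (s : ℝ) (l : ℝ[X] →ₗ[ℝ] ℝ) : Prop :=
  l 1 = 1 ∧ ∀ p, -l (p ^ 2) ≤ l (X * p ^ 2) ∧ l (X * p ^ 2) ≤ s * l (p ^ 2)

theorem exists_poly' {s0 s1 : ℝ} (h0 : -1 < s0) (h01 : s0 < s1) (h1 : s0 ≤ 1) {θ : ℝ}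
    (hθ : 0 < θ) : ∃ p : ℝ[X], (∀ l, Cls' 1 l → l X ≤ s1 + 2 * l p ∧ l (p ^ 2) ≤ 1) ∧
      ∀ l, Cls' s0 l → l (p ^ 2) ≤ θ := by
  obtain ⟨p, hp, hp'⟩ := exists_poly (s0 := (1 + s0) / 2) (s1 := (1 + s1) / 2) (by linarith)
    (by linarith) (by linarith) hθ
  let φ : ℝ[X] →ₐ[ℝ] ℝ[X] := aeval (C (1 / 2 : ℝ) * (1 + X))
  have hX : φ X = C (1 / 2 : ℝ) * (1 + X) := aeval_X _
  have key : ∀ s l, Cls' s l → Cls ((1 + s) / 2) (l ∘ₗ φ.toLinearMap) := by
    intro s l hl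
    refine ⟨by simpa using hl.1, fun q => ?_⟩
    have a := hl.2 (φ q)
    have e1 : φ (X * q ^ 2) = C (1 / 2 : ℝ) * (φ q ^ 2 + X * φ q ^ 2) := by
      rw [map_mul, map_pow, hX]; ring
    have e2 : φ ((C ((1 + s) / 2) - X) * q ^ 2) =
        C ((1 + s) / 2) * φ q ^ 2 - C (1 / 2 : ℝ) * (φ q ^ 2 + X * φ q ^ 2) := by
      rw [sub_mul, map_sub, e1, map_mul, map_pow]
      congr 2
      simp [φ]
    simp only [LinearMap.comp_apply, AlgHom.toLinearMap_apply]
    rw [e1, e2, map_sub, lC, lC, map_add]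
    constructor <;> linarith [a.1, a.2]
  refine ⟨φ p, fun l hl => ?_, fun l hl => ?_⟩
  · have a := hp _ (by simpa using key 1 l hl)
    simp only [LinearMap.comp_apply, AlgHom.toLinearMap_apply, map_pow] at a
    rw [hX, lC, map_add, hl.1] at a
    exact ⟨by linarith [a.1], a.2⟩
  · simpa using hp' _ (key s0 l hl)

end Pool.Agent.P.MP_81d17b_pr.NA
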