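import Pool.Agent.P.MP_81d17b_pr.NA.Gib
import Pool.Agent.P.MP_81d17b_pr.NA.Iso

/-! The set of couplings without boundary influence and the limiting two-point function. -/

namespace Pool.Agent.P.MP_81d17b_pr.NA

open MeasureTheory ProbabilityTheory Real Finset Function Filter Topology

set_option linter.unusedSectionVars false

variable {G : Type} [DecidableEq G] [Countable G] {β : ℝ} {S : SimpleGraph G} [S.LocallyFinite]
  {K : Sym2 G → ℝ}

/-- Product of the spins along a list of sites. -/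
noncomputable def spl (l : List G) (σ : G → Bool) : ℝ := (l.map fun x => sg (σ x)).prod

/-- The finite-volume average. -/
noncomputable def av (β : ℝ) (S : SimpleGraph G) [S.LocallyFinite] (K : Sym2 G → ℝ) (Q : Finset G)
    (f : (G → Bool) → ℝ) (τ : G → Bool) : ℝ := gam (wt β S K Q) Q f τ

/-- The couplings for which the boundary condition has no influence in the limit. -/
def UU (β : ℝ) (S : SimpleGraph G) [S.LocallyFinite] : Set (Sym2 G → ℝ) :=
  {K | ∀ (l : List G) (k : ℕ), ∀ᶠ Q in atTop, ∀ τ τ',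
    |av β S K Q (spl l) τ - av β S K Q (spl l) τ'| ≤ 1 / (k + 1)}

theorem UU.ev (hK : K ∈ UU β S) (l : List G) {ε : ℝ} (hε : 0 < ε) : ∀ᶠ Q in atTop, ∀ τ τ',
    |av β S K Q (spl l) τ - av β S K Q (spl l) τ'| ≤ ε := by
  obtain ⟨k, hk⟩ := exists_nat_one_div_lt hε
  exact (hK l k).mono fun Q h τ τ' => (h τ τ').trans hk.le

theorem cont_av (Q : Finset G) (f : (G → Bool) → ℝ) (τ : G → Bool) :
    Continuous fun K => av β S K Q f τ := by
  unfold av gam
  refine Continuous.div ?_ ?_ fun K => (part_pos (wt_pos Q) Q τ).ne'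
  · unfold wt; fun_prop
  · unfold part wt; fun_prop

theorem meas_UU : MeasurableSet (UU β S) := by
  simp only [UU, eventually_atTop]
  refine measurableSet_setOfPred.2 (Measurable.forall fun l => Measurable.forall fun k =>
    Measurable.exists fun _ => Measurable.forall fun Q => measurable_const.imp
      (measurableSet_setOfPred.1 (IsClosed.measurableSet ?_)))
  simp only [Set.ofPred_forall]
  exact isClosed_iInter fun τ => isClosed_iInter fun τ' =>
    isClosed_le ((cont_av Q _ τ).sub (cont_av Q _ τ')).abs continuous_const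

theorem wt_congr {K' : Sym2 G → ℝ} {Q : Finset G} (h : ∀ e ∈ edges S Q, K e = K' e) :
    wt β S K Q = wt β S K' Q := by
  funext σ
  rw [wt, wt, sum_congr rfl fun e he => by rw [h e he]]

theorem sp_cases (e : Sym2 G) (σ : G → Bool) : sp e σ = 1 ∨ sp e σ = -1 := by
  induction e using Sym2.ind with
  | h x y => rcases sg_cases (σ x) with a | a <;> rcases sg_cases (σ y) with b | b <;>
      simp [sp_mk, a, b]

theorem exp_sp (u : ℝ) (e : Sym2 G) (σ : G → Bool) :
    exp (u * sp e σ) = cosh u + sinh u * sp e σ := by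
  rcases sp_cases e σ with h | h <;> rw [h]
  · rw [mul_one, mul_one, cosh_add_sinh]
  · rw [mul_neg_one, mul_neg_one, ← cosh_sub_sinh, sub_eq_add_neg]

theorem av_tilt {Q : Finset G} {e : Sym2 G} (he : e ∈ edges S Q) (t : ℝ) (f : (G → Bool) → ℝ)
    (τ : G → Bool) : av β S (update K e t) Q f τ =
      (cosh (β * (t - K e)) * av β S K Q f τ +
        sinh (β * (t - K e)) * av β S K Q (fun σ => sp e σ * f σ) τ) /
      (cosh (β * (t - K e)) + sinh (β * (t - K e)) * av β S K Q (sp e) τ) ∧
    exp (-|β * (t - K e)|) ≤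
      cosh (β * (t - K e)) + sinh (β * (t - K e)) * av β S K Q (sp e) τ := by
  set u := β * (t - K e) with hu
  have e1 : wt β S (update K e t) Q = fun σ => wt β S K Q σ * exp (u * sp e σ) := by
    funext σ
    rw [wt, wt, ← exp_add, ← sum_erase_add _ _ he, ← sum_erase_add _ _ he, update_self,
      sum_congr rfl fun i hi => by rw [update_of_ne (ne_of_mem_erase hi)], hu]
    congr 1
    ring
  have e2 : gam (wt β S K Q) Q (fun σ => exp (u * sp e σ)) τ =
      cosh u + sinh u * av β S K Q (sp e) τ := by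
    simp only [exp_sp]
    rw [gam_add, gam_const (wt_pos Q), gam_mul_left, av]
  constructor
  · have e3 : gam (wt β S K Q) Q (fun σ => exp (u * sp e σ) * f σ) τ =
        cosh u * av β S K Q f τ + sinh u * av β S K Q (fun σ => sp e σ * f σ) τ := by
      simp only [exp_sp, add_mul, mul_assoc]
      rw [gam_add, gam_mul_left, gam_mul_left, av, av]
    have := (part_pos (wt_pos (β := β) (S := S) (K := K) Q) Q τ).ne'
    rw [← e2, ← e3, av, e1, gam, gam, gam, div_div_div_cancel_right₀ this]
    simp only [part, mul_assoc]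
  · rw [← e2]
    exact le_gam (wt_pos Q) fun σ _ => exp_le_exp.2 (by
      rcases sp_cases e σ with h | h <;> rw [h]
      · linarith [neg_abs_le u]
      · linarith [le_abs_self u])

theorem abs_spl (l : List G) (σ : G → Bool) : |spl l σ| = 1 := by
  induction l with
  | nil => simp [spl]
  | cons x l ih =>
    simp only [spl, List.map_cons, List.prod_cons, abs_mul] at ih ⊢
    rw [ih]
    rcases sg_cases (σ x) with a | a <;> simp [a]

theorem abs_av {Q : Finset G} {f : (G → Bool) → ℝ} {M : ℝ} (h : ∀ σ, |f σ| ≤ M) (τ : G → Bool) :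
    |av β S K Q f τ| ≤ M :=
  abs_le.2 ⟨le_gam (wt_pos Q) fun σ _ => (abs_le.1 (h σ)).1,
    gam_le (wt_pos Q) fun σ _ => (abs_le.1 (h σ)).2⟩

theorem inv_UU (K : Sym2 G → ℝ) (hK : K ∈ UU β S) (e : Sym2 G) (t : ℝ) :
    update K e t ∈ UU β S := by
  intro l k
  induction e using Sym2.ind with
  | h x y =>
  set u := β * (t - K s(x, y)) with hu
  set M := cosh u + |sinh u| with hM
  set m := exp (-|u|) with hm
  have hc := cosh_pos u
  have hM0 : 0 < M := by positivity
  have hm0 : 0 < m := exp_pos _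
  set ε := min (1 / ((k : ℝ) + 1)) (1 / ((k : ℝ) + 1) / (M / m + M * M / (m * m))) with hε
  have hε0 : 0 < ε := by positivity
  filter_upwards [UU.ev hK l hε0, UU.ev hK (x :: y :: l) hε0, UU.ev hK [x, y] hε0]
    with Q a b c τ τ'
  by_cases he : s(x, y) ∈ edges S Q
  · have e1 : (fun σ => sp s(x, y) σ * spl l σ) = spl (x :: y :: l) := by
      funext σ; simp [spl, sp_mk, mul_assoc]
    have e2 : sp s(x, y) = spl [x, y] := by funext σ; simp [spl, sp_mk]
    obtain ⟨p1, p2⟩ := av_tilt (β := β) (K := K) he t (spl l) τ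
    obtain ⟨q1, q2⟩ := av_tilt (β := β) (K := K) he t (spl l) τ'
    rw [p1, q1, e1, e2]
    rw [e2] at p2 q2
    rw [← hu] at p2 q2 ⊢
    rw [← hm] at p2 q2
    have a1 := a τ τ'
    have b1 := b τ τ'
    have c1 := c τ τ'
    have a2 := abs_av (β := β) (S := S) (K := K) (Q := Q) (fun σ => (abs_spl l σ).le) τ'
    have b2 := abs_av (β := β) (S := S) (K := K) (Q := Q)
      (fun σ => (abs_spl (x :: y :: l) σ).le) τ'
    generalize av β S K Q (spl l) τ = A at *
    generalize av β S K Q (spl l) τ' = A' at *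
    generalize av β S K Q (spl (x :: y :: l)) τ = B at *
    generalize av β S K Q (spl (x :: y :: l)) τ' = B' at *
    generalize av β S K Q (spl [x, y]) τ = C at *
    generalize av β S K Q (spl [x, y]) τ' = C' at *
    have n1 : |cosh u * (A - A') + sinh u * (B - B')| ≤ M * ε := by
      refine (abs_add_le _ _).trans ?_
      rw [abs_mul, abs_mul, abs_of_pos hc, hM, add_mul]
      gcongr
    have n2 : |cosh u * A' + sinh u * B'| ≤ M := by
      refine (abs_add_le _ _).trans ?_
      rw [abs_mul, abs_mul, abs_of_pos hc, hM]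
      nlinarith [abs_nonneg (sinh u)]
    have n3 : |sinh u * (C' - C)| ≤ M * ε := by
      rw [abs_mul, abs_sub_comm]
      exact mul_le_mul (by linarith) c1 (abs_nonneg _) hM0.le
    have d1 := hm0.trans_le p2
    have d2 := hm0.trans_le q2
    have e3 : (cosh u * A + sinh u * B) / (cosh u + sinh u * C) -
        (cosh u * A' + sinh u * B') / (cosh u + sinh u * C') =
        (cosh u * (A - A') + sinh u * (B - B')) / (cosh u + sinh u * C) +
          (cosh u * A' + sinh u * B') * (sinh u * (C' - C)) /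
            ((cosh u + sinh u * C) * (cosh u + sinh u * C')) := by
      field_simp
      ring
    rw [e3]
    refine (abs_add_le _ _).trans ?_
    rw [abs_div, abs_div, abs_mul, abs_of_pos d1, abs_of_pos (mul_pos d1 d2)]
    calc _ ≤ M * ε / m + M * (M * ε) / (m * m) := by gcongr
      _ = ε * (M / m + M * M / (m * m)) := by ring
      _ ≤ _ := (le_div_iff₀ (by positivity)).1 (min_le_right _ _)
  · unfold av at a ⊢
    rw [wt_congr (K' := K) fun i hi => update_of_ne (ne_of_mem_of_not_mem hi he) _ _]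
    exact (a τ τ').trans (min_le_left _ _)

theorem dep_spl (l : List G) : Dep l.toFinset (spl l) := fun σ τ h => by
  unfold spl
  rw [List.map_congr_left fun x hx => by rw [h x (List.mem_toFinset.2 hx)]]

theorem two_states (hU : K ∉ UU β S) :
    ∃ m m', IsDLR β S K m ∧ IsDLR β S K m' ∧ m ≠ m' := by
  simp only [UU, Set.mem_ofPred_eq, not_forall] at hU
  obtain ⟨l, k, h⟩ := hU
  have h0 : ∀ Q : Finset G, ∃ τ τ', (¬∀ τ τ', |av β S K Q (spl l) τ - av β S K Q (spl l) τ'| ≤
      1 / ((k : ℝ) + 1)) → 1 / ((k : ℝ) + 1) ≤ |av β S K Q (spl l) τ - av β S K Q (spl l) τ'| := by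
    intro Q
    by_cases h1 : ∀ τ τ', |av β S K Q (spl l) τ - av β S K Q (spl l) τ'| ≤ 1 / ((k : ℝ) + 1)
    · exact ⟨fun _ => true, fun _ => true, fun h2 => absurd h1 h2⟩
    · push Not at h1
      obtain ⟨τ, τ', h2⟩ := h1
      exact ⟨τ, τ', fun _ => h2.le⟩
  choose τ τ' h0 using h0
  have := frequently_iff_neBot.1 ((not_eventually.1 h).mono h0)
  obtain ⟨u, hu⟩ := Ultrafilter.exists_le (atTop ⊓ 𝓟 {Q : Finset G |
    1 / ((k : ℝ) + 1) ≤ |av β S K Q (spl l) (τ Q) - av β S K Q (spl l) (τ' Q)|})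
  rw [le_inf_iff] at hu
  obtain ⟨m, m1, m2⟩ := dlr_limit (β := β) (S := S) (K := K) u hu.1 τ
  obtain ⟨m', m1', m2'⟩ := dlr_limit (β := β) (S := S) (K := K) u hu.1 τ'
  refine ⟨m, m', m1, m1', fun hm => ?_⟩
  have a5 := ge_of_tendsto ((m2 _ _ (dep_spl l)).sub (m2' _ _ (dep_spl l))).abs
    (le_principal_iff.1 hu.2)
  rw [hm, sub_self, abs_zero] at a5
  exact absurd a5 (not_le.2 (by positivity))

theorem av_av {Λ Q : Finset G} (h : Λ ⊆ Q) (f : (G → Bool) → ℝ)
    (τ : G → Bool) : av β S K Q (av β S K Λ f) τ = av β S K Q f τ := by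
  unfold av
  rw [← gam_gam (wt_pos Q) h f]
  exact gam_congr fun σ _ => (gam_cons h f σ).symm

/-- The finite-volume two-point function with plus boundary condition. -/
noncomputable def cq (β : ℝ) (S : SimpleGraph G) [S.LocallyFinite] (K : Sym2 G → ℝ) (Q : Finset G) (x y : G) : ℝ :=
  av β S K Q (sp s(x, y)) fun _ => true

/-- Its limit. -/
noncomputable def cc (β : ℝ) (S : SimpleGraph G) [S.LocallyFinite] (K : Sym2 G → ℝ) (x y : G) : ℝ :=
  limUnder atTop fun Q => cq β S K Q x y

theorem cc_tend (hK : K ∈ UU β S) (x y : G) :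
    Tendsto (fun Q => cq β S K Q x y) atTop (𝓝 (cc β S K x y)) := by
  refine tendsto_nhds_limUnder (cauchySeq_tendsto_of_complete (Metric.cauchySeq_iff'.2
    fun ε hε => ?_))
  obtain ⟨N, hN⟩ := (UU.ev hK [x, y] (half_pos hε)).exists
  have e2 : spl [x, y] = sp s(x, y) := by funext σ; simp [spl, sp_mk]
  rw [e2] at hN
  refine ⟨N, fun Q hQ => lt_of_le_of_lt ?_ (half_lt_self hε)⟩
  rw [Real.dist_eq, cq, ← av_av hQ, cq, abs_le]
  constructor
  · exact le_sub_iff_add_le.2 (le_gam (wt_pos Q) fun σ _ => by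
      linarith [(abs_le.1 (hN σ fun _ => true)).1])
  · exact sub_le_iff_le_add.2 (gam_le (wt_pos Q) fun σ _ => by
      linarith [(abs_le.1 (hN σ fun _ => true)).2])

theorem cc_symm (x y : G) : cc β S K x y = cc β S K y x := by
  unfold cc cq
  rw [Sym2.eq_swap]

variable {Γ : Type} [Group Γ] [MulAction Γ G]

/-- The action on couplings. -/
def act (g : Γ) (K : Sym2 G → ℝ) : Sym2 G → ℝ := fun e => K (e.map (g⁻¹ • ·))

theorem cq_act (hg : ∀ (g : Γ) x y, S.Adj (g • x) (g • y) ↔ S.Adj x y) (g : Γ) (Q : Finset G)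
    (x y : G) : cq β S (act g K) (Q.map (MulAction.toPerm g).toEmbedding) (g • x) (g • y) =
      cq β S K Q x y := by
  set Q' := Q.map (MulAction.toPerm g).toEmbedding with hQ'
  have hm : ∀ z, z ∈ Q' ↔ g⁻¹ • z ∈ Q := fun z => by simp [hQ']
  have h1 : ∀ F : (G → Bool) → ℝ, ∑ σ ∈ confs Q' fun _ => true, F (fun z => σ (g • z)) =
      ∑ σ ∈ confs Q fun _ => true, F σ := fun F =>
    sum_nbij' (fun σ z => σ (g • z)) (fun σ z => σ (g⁻¹ • z))
      (fun σ h => mem_confs.2 fun z hz => mem_confs.1 h _ (by simpa [hm] using hz))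
      (fun σ h => mem_confs.2 fun z hz => mem_confs.1 h _ (by simpa [hm] using hz))
      (fun σ _ => by simp) (fun σ _ => by simp) fun σ _ => rfl
  have h2 : ∀ σ, wt β S (act g K) Q' σ = wt β S K Q fun z => σ (g • z) := by
    intro σ
    unfold wt
    congr 2
    refine sum_nbij' (Sym2.map (g⁻¹ • ·)) (Sym2.map (g • ·)) (fun e he => ?_) (fun e he => ?_)
      (fun e _ => by simp [Sym2.map_map]) (fun e _ => by simp [Sym2.map_map]) fun e _ => ?_
    · obtain ⟨z, hz, s, hs, rfl⟩ := mem_edges.1 he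
      exact mem_edges.2 ⟨g⁻¹ • z, (hm z).1 hz, _, (hg _ _ _).2 hs, rfl⟩
    · obtain ⟨z, hz, s, hs, rfl⟩ := mem_edges.1 he
      exact mem_edges.2 ⟨g • z, (hm _).2 (by simpa using hz), _, (hg _ _ _).2 hs, rfl⟩
    · induction e using Sym2.ind with
      | h a b => simp [act, sp_mk]
  unfold cq av gam part
  rw [← h1, ← h1]
  simp only [h2, sp_mk]

theorem cc_act (hg : ∀ (g : Γ) x y, S.Adj (g • x) (g • y) ↔ S.Adj x y) (g : Γ) (x y : G) :
    cc β S (act g K) (g • x) (g • y) = cc β S K x y := by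
  let e : Finset G ≃o Finset G := (MulAction.toPerm g).finsetCongr.toOrderIso
    (fun _ _ h => map_subset_map.2 h) fun _ _ h => map_subset_map.2 h
  unfold cc limUnder
  conv_lhs => rw [← e.map_atTop, Filter.map_map]
  congr 2
  funext Q
  exact cq_act hg g Q x y

end Pool.Agent.P.MP_81d17b_pr.NA
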